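import Mathlib

set_option autoImplicit false

/-!
# Sums of powers of distances
-/

namespace Pool.Agent.X136.QC

open Finset

theorem sum_rpow_le {s : ℝ} (h0 : 0 ≤ s) (h1 : s < 1) (n : ℕ) :
    ∑ k ∈ range n, (((k + 1 : ℕ) : ℝ)) ^ (-s) ≤ (n : ℝ) ^ (1 - s) / (1 - s) := by
  have hs : 0 < 1 - s := by linarith
  induction n with
  | zero =>
    rw [range_zero, sum_empty, Nat.cast_zero, Real.zero_rpow hs.ne', zero_div]
  | succ n ih =>
    rw [sum_range_succ]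
    have hn : (0 : ℝ) < ((n + 1 : ℕ) : ℝ) := by positivity
    -- Bernoulli's inequality
    have hb : ((n : ℝ) / ((n + 1 : ℕ) : ℝ)) ^ (1 - s) ≤ 1 + (1 - s) * (-(1 / ((n + 1 : ℕ) : ℝ))) := by
      have h2 := rpow_one_add_le_one_add_mul_self (s := -(1 / ((n + 1 : ℕ) : ℝ))) (p := 1 - s)
        (by
          have : 1 / ((n + 1 : ℕ) : ℝ) ≤ 1 := by
            rw [div_le_one hn]; push_cast; linarith [Nat.cast_nonneg (α := ℝ) n]
          linarith) hs.le (by linarith)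
      have e : 1 + -(1 / ((n + 1 : ℕ) : ℝ)) = (n : ℝ) / ((n + 1 : ℕ) : ℝ) := by
        field_simp
        push_cast
        ring
      rw [e] at h2
      exact h2
    have h3 : (n : ℝ) ^ (1 - s) = ((n : ℝ) / ((n + 1 : ℕ) : ℝ)) ^ (1 - s) *
        ((n + 1 : ℕ) : ℝ) ^ (1 - s) := by
      rw [← Real.mul_rpow (by positivity) hn.le, div_mul_cancel₀ _ hn.ne']
    have h4 : ((n + 1 : ℕ) : ℝ) ^ (-s) = ((n + 1 : ℕ) : ℝ) ^ (1 - s) * (1 / ((n + 1 : ℕ) : ℝ)) := by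
      rw [show (-s : ℝ) = (1 - s) + (-1) by ring, Real.rpow_add hn, Real.rpow_neg_one, one_div]
    have h5 : 0 < ((n + 1 : ℕ) : ℝ) ^ (1 - s) := Real.rpow_pos_of_pos hn _
    have h6 : (n : ℝ) ^ (1 - s) ≤ (1 + (1 - s) * (-(1 / ((n + 1 : ℕ) : ℝ)))) *
        ((n + 1 : ℕ) : ℝ) ^ (1 - s) := by
      rw [h3]
      exact mul_le_mul_of_nonneg_right hb h5.le
    have h7 : (n : ℝ) ^ (1 - s) / (1 - s) + ((n + 1 : ℕ) : ℝ) ^ (-s) ≤
        ((n + 1 : ℕ) : ℝ) ^ (1 - s) / (1 - s) := by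
      rw [h4, div_add' _ _ _ hs.ne', div_le_div_iff_of_pos_right hs]
      nlinarith
    linarith

/-- the weight -/
noncomputable def hw (s : ℝ) (k : ℕ) : ℝ := ((max k 1 : ℕ) : ℝ) ^ (-s)

theorem hw_nonneg (s : ℝ) (k : ℕ) : 0 ≤ hw s k := by unfold hw; positivity

theorem hw_anti {s : ℝ} (h0 : 0 ≤ s) {k l : ℕ} (h : k ≤ l) : hw s l ≤ hw s k := by
  unfold hw
  refine Real.rpow_le_rpow_of_nonpos ?_ ?_ (by linarith)
  · exact_mod_cast (by omega : 0 < max k 1)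
  · exact_mod_cast (by omega : max k 1 ≤ max l 1)

theorem sum_hw_range {s : ℝ} (h0 : 0 ≤ s) (h1 : s < 1) {n : ℕ} (hn : 1 ≤ n) :
    ∑ k ∈ range n, hw s k ≤ (2 / (1 - s)) * (n : ℝ) ^ (1 - s) := by
  have hs : 0 < 1 - s := by linarith
  obtain ⟨m, rfl⟩ : ∃ m, n = m + 1 := ⟨n - 1, by omega⟩
  rw [sum_range_succ']
  have e : ∀ k, hw s (k + 1) = (((k + 1 : ℕ) : ℝ)) ^ (-s) := by
    intro k; unfold hw; rw [max_eq_left (by omega)]
  rw [sum_congr rfl fun k _ => e k]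
  have h2 := sum_rpow_le h0 h1 m
  have h3 : hw s 0 = 1 := by unfold hw; simp
  rw [h3]
  have h4 : (m : ℝ) ^ (1 - s) ≤ ((m + 1 : ℕ) : ℝ) ^ (1 - s) :=
    Real.rpow_le_rpow (by positivity) (by push_cast; linarith) hs.le
  have h5 : (1 : ℝ) ≤ ((m + 1 : ℕ) : ℝ) ^ (1 - s) := by
    refine Real.one_le_rpow ?_ hs.le
    push_cast; linarith [Nat.cast_nonneg (α := ℝ) m]
  have h6 : (1 : ℝ) ≤ 1 / (1 - s) := by rw [le_div_iff₀ hs]; linarith
  have h7 : (1 : ℝ) ≤ 1 / (1 - s) * ((m + 1 : ℕ) : ℝ) ^ (1 - s) := by nlinarith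
  have h8 : (m : ℝ) ^ (1 - s) / (1 - s) ≤ ((m + 1 : ℕ) : ℝ) ^ (1 - s) / (1 - s) :=
    div_le_div_of_nonneg_right h4 hs.le
  calc _ ≤ (m : ℝ) ^ (1 - s) / (1 - s) + 1 := by linarith
    _ ≤ ((m + 1 : ℕ) : ℝ) ^ (1 - s) / (1 - s) + 1 / (1 - s) * ((m + 1 : ℕ) : ℝ) ^ (1 - s) :=
        add_le_add h8 h7
    _ = _ := by ring

/-- the average over the levels -/
theorem sum_level {s : ℝ} (h0 : 0 ≤ s) (h1 : s < 1) {n : ℕ} (hn : 1 ≤ n) (d : ℤ) :
    ∑ x ∈ Finset.Icc (1 : ℤ) n, hw s (x - d).natAbs ≤ (4 / (1 - s)) * (n : ℝ) ^ (1 - s) := by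
  have hs : 0 < 1 - s := by linarith
  -- clamp
  set d' : ℤ := max 1 (min d n) with hd'
  have h2 : ∀ x ∈ Finset.Icc (1 : ℤ) n, hw s (x - d).natAbs ≤ hw s (x - d').natAbs := by
    intro x hx
    rw [Finset.mem_Icc] at hx
    refine hw_anti h0 ?_
    omega
  refine (sum_le_sum h2).trans ?_
  rw [← sum_filter_add_sum_filter_not _ (fun x => x ≤ d')]
  have h3 := sum_hw_range h0 h1 hn
  have key : ∀ A : Finset ℤ, A ⊆ Finset.Icc (1 : ℤ) n →
      Set.InjOn (fun x : ℤ => (x - d').natAbs) A →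
      ∑ x ∈ A, hw s (x - d').natAbs ≤ ∑ k ∈ range n, hw s k := by
    intro A hA hinj
    have e : ∑ x ∈ A, hw s (x - d').natAbs =
        ∑ k ∈ A.image (fun x : ℤ => (x - d').natAbs), hw s k := (sum_image hinj).symm
    rw [e]
    refine sum_le_sum_of_subset_of_nonneg ?_ fun k _ _ => hw_nonneg s k
    intro k hk
    rw [mem_image] at hk
    obtain ⟨x, hx, rfl⟩ := hk
    have := Finset.mem_Icc.1 (hA hx)
    rw [mem_range]
    omega
  have k1 := key ((Finset.Icc (1 : ℤ) n).filter fun x => x ≤ d') (filter_subset _ _) (by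
    intro x hx y hy h
    have hx' := (mem_filter.1 hx).2
    have hy' := (mem_filter.1 hy).2
    simp only at h
    omega)
  have k2 := key ((Finset.Icc (1 : ℤ) n).filter fun x => ¬ x ≤ d') (filter_subset _ _) (by
    intro x hx y hy h
    have hx' := (mem_filter.1 hx).2
    have hy' := (mem_filter.1 hy).2
    simp only at h
    omega)
  calc _ ≤ 2 / (1 - s) * (n : ℝ) ^ (1 - s) + 2 / (1 - s) * (n : ℝ) ^ (1 - s) :=
        add_le_add (k1.trans h3) (k2.trans h3)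
    _ = _ := by ring

end Pool.Agent.X136.QC
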