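import Pool.Agent.X136.QC.Lat
import Pool.Agent.X136.QC.Sum
import Pool.Agent.H160R2.SA.Arm

set_option autoImplicit false

/-!
# The revealment
-/

namespace Pool.Agent.X136.QC

open Finset MeasureTheory ProbabilityTheory H974

theorem shE_mem (v : ℤ × ℤ) (e : Edge) :
    s((e.1 - v.1, e.2.1 - v.2), if e.2.2 = true then (e.1 - v.1, e.2.1 - v.2 + 1)
      else (e.1 - v.1 + 1, e.2.1 - v.2)) ∈ sqLattice.edgeSet := by
  rw [SimpleGraph.mem_edgeSet]
  show |_ - _| + |_ - _| = (1 : ℤ)
  split_ifs <;> simp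

/-- the shifted edge -/
def shE (v : ℤ × ℤ) (e : Edge) : sqLattice.edgeSet := ⟨_, shE_mem v e⟩

theorem shE_inj (v : ℤ × ℤ) : Function.Injective (shE v) := by
  rintro ⟨x, y, b⟩ ⟨x', y', b'⟩ h
  have h1 := congrArg Subtype.val h
  simp only [shE] at h1
  rw [Sym2.eq_iff] at h1
  cases b <;> cases b' <;> simp only [Bool.false_eq_true, if_false, if_true, Prod.mk.injEq] at h1 <;>
    simp only [Prod.mk.injEq, Bool.false_eq_true, and_false, and_true, reduceCtorEq] <;> omega

theorem shE_ends {v : ℤ × ℤ} {e : Edge} {a b : ℤ × ℤ} (h : ends e = s(a, b)) :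
    (shE v e : Sym2 (ℤ × ℤ)) = s(a - v, b - v) := by
  have h1 : (shE v e : Sym2 (ℤ × ℤ)) = Sym2.map (fun w => w - v) (ends e) := by
    obtain ⟨x, y, t⟩ := e
    obtain ⟨v1, v2⟩ := v
    unfold ends shE
    rw [Sym2.map_mk]
    cases t
    · simp only [Bool.false_eq_true, if_false]
      rw [Prod.mk_sub_mk, Prod.mk_sub_mk, show x - v1 + 1 = x + 1 - v1 by ring]
    · simp only [if_true]
      rw [Prod.mk_sub_mk, Prod.mk_sub_mk, show y - v2 + 1 = y + 1 - v2 by ring]
  rw [h1, h, Sym2.map_mk]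

theorem crit_map (v : ℤ × ℤ) : (bondLaw hlf).map (fun ω e => ω (shE v e)) = crit :=
  Measure.map_infinitePi_infinitePi_of_inj
    (P := fun _ : sqLattice.edgeSet => bernoulliMeasure true false hlf) (shE_inj v)

theorem arm_bound : ∃ C : ℝ, 1 ≤ C ∧ ∀ (W : Finset Edge) (φ : ℤ × ℤ → ℤ)
    (_ : ∀ u v, φ u ≤ φ v + sd u v) (x : ℤ) (v : ℤ × ℤ),
    crit.real {ω | (fun i : W => ω i) ∈ {y : W → Bool | v ∈ CC (enW W) φ x y}} ≤
      C * hw (5 / 48) (x - φ v).natAbs := by
  obtain ⟨c, C, hc, hC, h⟩ := Pool.Agent.H160R2.SA.arSharp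
  refine ⟨max C 1, le_max_right _ _, ?_⟩
  intro W φ hφ x v
  have hmax : 0 ≤ max C 1 := le_trans zero_le_one (le_max_right _ _)
  rcases Nat.eq_zero_or_pos (x - φ v).natAbs with h0 | h0
  · rw [h0]
    have e : hw (5 / 48) 0 = 1 := by unfold hw; simp
    rw [e, mul_one]
    exact measureReal_le_one.trans (le_max_right _ _)
  · set k := (x - φ v).natAbs with hk
    have hm : MeasurableSet {ω : Edge → Bool | (fun i : W => ω i) ∈
        {y : W → Bool | v ∈ CC (enW W) φ x y}} :=
      (Finset.measurable_restrict W) (Set.toFinite {y : W → Bool | v ∈ CC (enW W) φ x y}).measurableSet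
    have hg : Measurable fun (ω : sqLattice.edgeSet → Bool) (e : Edge) => ω (shE v e) :=
      measurable_pi_lambda _ fun e => measurable_pi_apply _
    rw [← crit_map v, map_measureReal_apply hg hm]
    have h1 := H906.Cyl.arm_law k
    have h2 := (h k h0).2
    have hsub : (fun (ω : sqLattice.edgeSet → Bool) (e : Edge) => ω (shE v e)) ⁻¹'
        {ω : Edge → Bool | (fun i : W => ω i) ∈ {y : W → Bool | v ∈ CC (enW W) φ x y}} ⊆
        {ω | ∃ w ∈ cluster0 ω, (k : ℤ) ≤ max |w.1| |w.2|} := by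
      intro ω hω
      obtain ⟨u, hu, huv⟩ := hω
      have hvu := huv.symm
      refine ⟨u - v, ?_, ?_⟩
      · have key : ∀ w, Co (enW W) (fun i : W => ω (shE v i)) v w →
            (openGraph ω).Reachable (0, 0) (w - v) := by
          intro w hw
          induction hw with
          | refl =>
            rw [sub_self]
            exact SimpleGraph.Reachable.refl _
          | @tail a b _ hbc ih =>
            obtain ⟨i, hi1, hi2⟩ := hbc
            refine ih.trans (SimpleGraph.Adj.reachable ?_)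
            have e := shE_ends (v := v) (show ends i.1 = s(a, b) from hi2)
            have hmem : s(a - v, b - v) ∈ sqLattice.edgeSet := by
              rw [← e]; exact (shE v i).2
            unfold openGraph
            rw [SimpleGraph.fromEdgeSet_adj]
            refine ⟨⟨hmem, ?_⟩, ?_⟩
            · have : (⟨s(a - v, b - v), hmem⟩ : sqLattice.edgeSet) = shE v i := Subtype.ext e.symm
              rw [this]
              exact hi1
            · exact (SimpleGraph.mem_edgeSet _).1 hmem |>.ne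
        exact key u hvu
      · have a1 := hφ u v
        have a2 := hφ v u
        rw [sd_comm v u] at a2
        rw [hu] at a1 a2
        have a3 : k ≤ sd u v := by omega
        unfold sd at a3
        simp only [Prod.fst_sub, Prod.snd_sub]
        rw [Int.abs_eq_natAbs, Int.abs_eq_natAbs]
        have : (k : ℤ) ≤ ((max (u.1 - v.1).natAbs (u.2 - v.2).natAbs : ℕ) : ℤ) := by
          exact_mod_cast a3
        rw [Nat.cast_max] at this
        exact this
    refine (measureReal_mono hsub).trans ?_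
    rw [h1]
    refine h2.trans ?_
    have e : hw (5 / 48) k = (k : ℝ) ^ (-(5 / 48 : ℝ)) := by
      unfold hw; rw [max_eq_left (by omega)]
    rw [e]
    exact mul_le_mul_of_nonneg_right (le_max_left _ _) (by positivity)

open Classical in
/-- **The variance bound for finite sets of edges.** -/
theorem var_finite : ∃ C : ℝ, 0 < C ∧ ∀ (ν : Measure unitInterval) [IsProbabilityMeasure ν],
    ∫ p, (p : ℝ) ∂ν = 1 / 2 → rho ν < 1 → ∀ (W : Finset Edge) (S T : Set (ℤ × ℤ)) (n : ℕ), 1 ≤ n →
    (∀ u ∈ S, ∀ v ∈ T, n ≤ sd u v) →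
    ∫ q, ((law q).real (EV W S T) - crit.real (EV W S T)) ^ 2 ∂env ν ≤
      C * (rho ν / (1 - rho ν) ^ 2) * (n : ℝ) ^ (-(5 / 48 : ℝ)) := by
  obtain ⟨C, hC, harm⟩ := arm_bound
  refine ⟨12 * C, by linarith, ?_⟩
  intro ν _ hm hρ W S T n hn hd
  have hn0 : (0 : ℝ) < n := by exact_mod_cast hn
  have hρ0 := rho_nonneg ν
  rcases S.eq_empty_or_nonempty with hS | hS
  · have e : EV W S T = ∅ := by
      ext ω
      simp only [Set.mem_empty_iff_false, iff_false]
      rintro ⟨u, hu, -⟩
      rw [hS] at hu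
      exact hu
    rw [e]
    simp only [measureReal_empty, sub_zero, ne_eq, OfNat.ofNat_ne_zero, not_false_eq_true, zero_pow,
      integral_zero]
    have : 0 < 1 - rho ν := by linarith
    positivity
  · have h1 := var_eq (E := Edge) hm ({x : W → Bool | Jn (enW W) S T x})
    have h2 : ∫ q, ((law q).real (EV W S T) - crit.real (EV W S T)) ^ 2 ∂env ν =
        ∑ x : W → Bool, ∑ y : W → Bool, fJ (enW W) S T x * fJ (enW W) S T y *
        ∏ i : W, ((1 + rho ν * (sg (x i) * sg (y i))) / 4) -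
        ((∑ x : W → Bool, fJ (enW W) S T x) / 2 ^ Fintype.card W) ^ 2 := h1
    rw [h2]
    have hφ : ∀ u v : ℤ × ℤ, (lev S u : ℤ) ≤ lev S v + sd u v := by
      intro u v
      have := lev_lip hS u v
      omega
    have key := conn_stab (en := enW W) (φ := fun v => (lev S v : ℤ)) (S := S) (T := T) (n := n)
      (δ := (6 * C) * (n : ℝ) ^ (-(5 / 48 : ℝ))) (ρ := rho ν) ?_ hn ?_ ?_ (by positivity) ?_ hρ0 hρ
    · refine key.trans (le_of_eq ?_)
      ring
    · intro i u v h
      have h3 : sd v u ≤ 1 := by rw [sd_comm]; exact sd_ends h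
      have h4 := hφ v u
      show (lev S v : ℤ) ≤ lev S u + 1
      omega
    · intro u hu
      have h3 := lev_le hu u
      rw [sd_self] at h3
      show (lev S u : ℤ) ≤ 0
      omega
    · intro v hv
      obtain ⟨s, hs, h3⟩ := lev_spec hS v
      have h4 := hd s hs v hv
      rw [sd_comm] at h4
      show (n : ℤ) ≤ lev S v
      omega
    · intro i v _
      have h3 : ∀ x ∈ Finset.Icc (1 : ℤ) n,
          ((univ.filter fun ω : W → Bool => v ∈ CC (enW W) (fun v => (lev S v : ℤ)) x ω).card : ℝ) ≤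
          (C * hw (5 / 48) (x - lev S v).natAbs) * (2 : ℝ) ^ Fintype.card W := by
        intro x _
        have h4 := harm W (fun v => (lev S v : ℤ)) hφ x v
        rw [crit_eq, fair_event, div_le_iff₀ (by positivity)] at h4
        refine le_trans (le_of_eq ?_) h4
        rw [card_filter]
        push_cast
        rfl
      refine (sum_le_sum h3).trans ?_
      rw [← sum_mul]
      refine mul_le_mul_of_nonneg_right ?_ (by positivity)
      rw [← mul_sum]
      have h5 := sum_level (s := 5 / 48) (by norm_num) (by norm_num) hn (lev S v)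
      have h6 : (n : ℝ) ^ (1 - 5 / 48 : ℝ) = n * (n : ℝ) ^ (-(5 / 48 : ℝ)) := by
        rw [show (1 - 5 / 48 : ℝ) = 1 + (-(5 / 48)) by ring, Real.rpow_add hn0, Real.rpow_one]
      rw [h6] at h5
      have h7 : 0 ≤ (n : ℝ) * (n : ℝ) ^ (-(5 / 48 : ℝ)) := by positivity
      calc C * ∑ x ∈ Finset.Icc (1 : ℤ) n, hw (5 / 48) (x - lev S v).natAbs
          ≤ C * (4 / (1 - 5 / 48) * (n * (n : ℝ) ^ (-(5 / 48 : ℝ)))) :=
            mul_le_mul_of_nonneg_left h5 (by linarith)
        _ ≤ C * (6 * (n * (n : ℝ) ^ (-(5 / 48 : ℝ)))) := by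
            refine mul_le_mul_of_nonneg_left (mul_le_mul_of_nonneg_right (by norm_num) h7)
              (by linarith)
        _ = _ := by ring

/-- **The variance bound.** -/
theorem var_main : ∃ C : ℝ, 0 < C ∧ ∀ (ν : Measure unitInterval) [IsProbabilityMeasure ν],
    ∫ p, (p : ℝ) ∂ν = 1 / 2 → rho ν < 1 → ∀ (D : Set Edge) (S T : Set (ℤ × ℤ)) (n : ℕ), 1 ≤ n →
    (∀ u ∈ S, ∀ v ∈ T, n ≤ sd u v) →
    ∫ q, ((law q).real (Joined D S T) - crit.real (Joined D S T)) ^ 2 ∂env ν ≤
      C * (rho ν / (1 - rho ν) ^ 2) * (n : ℝ) ^ (-(5 / 48 : ℝ)) := by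
  obtain ⟨C, hC, h⟩ := var_finite
  refine ⟨C, hC, ?_⟩
  intro ν _ hm hρ D S T n hn hd
  exact var_le_of_finite fun N => h ν hm hρ (WN D N) S T n hn hd

end Pool.Agent.X136.QC
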