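import Pool.Agent.X136.QC.Walsh

set_option autoImplicit false

/-!
# Exploration of the clusters of a level set
-/

namespace Pool.Agent.X136.QC

open Finset

section Expl

variable {ι V : Type*} (en : ι → Sym2 V)

/-- joined by an open edge -/
def Ad (ω : ι → Bool) (u v : V) : Prop := ∃ i, ω i = true ∧ en i = s(u, v)

/-- connected -/
def Co (ω : ι → Bool) (u v : V) : Prop := Relation.ReflTransGen (Ad en ω) u v

variable {en}

theorem Ad.symm {ω : ι → Bool} {u v : V} (h : Ad en ω u v) : Ad en ω v u := by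
  obtain ⟨i, h1, h2⟩ := h
  exact ⟨i, h1, by rw [h2, Sym2.eq_swap]⟩

theorem Co.symm {ω : ι → Bool} {u v : V} (h : Co en ω u v) : Co en ω v u := by
  induction h with
  | refl => exact Relation.ReflTransGen.refl
  | tail _ hbc ih => exact Relation.ReflTransGen.head hbc.symm ih

variable (en)

/-- the union of the clusters of the level `x` -/
def CC (φ : V → ℤ) (x : ℤ) (ω : ι → Bool) : Set V := {v | ∃ u, φ u = x ∧ Co en ω u v}

open Classical in
/-- the edges which touch it -/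
noncomputable def JJ [Fintype ι] (φ : V → ℤ) (x : ℤ) (ω : ι → Bool) : Finset ι :=
  univ.filter fun i => ∃ v, v ∈ en i ∧ v ∈ CC en φ x ω

variable {en}

theorem mem_JJ [Fintype ι] {φ : V → ℤ} {x : ℤ} {ω : ι → Bool} {i : ι} :
    i ∈ JJ en φ x ω ↔ ∃ v, v ∈ en i ∧ v ∈ CC en φ x ω := by
  classical
  unfold JJ
  simp only [mem_filter, mem_univ, true_and]

/-- paths from the explored clusters are the same -/
theorem co_same [Fintype ι] {φ : V → ℤ} {x : ℤ} {ω ω' : ι → Bool}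
    (h : ∀ i ∈ JJ en φ x ω, ω i = ω' i) {u v : V} (hu : u ∈ CC en φ x ω) (huv : Co en ω u v) :
    Co en ω' u v ∧ v ∈ CC en φ x ω := by
  induction huv with
  | refl => exact ⟨Relation.ReflTransGen.refl, hu⟩
  | tail _ hbc ih =>
    obtain ⟨h1, h2⟩ := ih
    obtain ⟨i, hi1, hi2⟩ := hbc
    have h3 : i ∈ JJ en φ x ω := mem_JJ.2 ⟨_, by rw [hi2]; exact Sym2.mem_mk_left _ _, h2⟩
    refine ⟨h1.tail ⟨i, by rw [← h i h3]; exact hi1, hi2⟩, ?_⟩
    obtain ⟨w, hw1, hw2⟩ := h2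
    exact ⟨w, hw1, hw2.tail ⟨i, hi1, hi2⟩⟩

theorem co_same' [Fintype ι] {φ : V → ℤ} {x : ℤ} {ω ω' : ι → Bool}
    (h : ∀ i ∈ JJ en φ x ω, ω i = ω' i) {u v : V} (hu : u ∈ CC en φ x ω) (huv : Co en ω' u v) :
    Co en ω u v := by
  induction huv with
  | refl => exact Relation.ReflTransGen.refl
  | @tail b c _ hbc ih =>
    obtain ⟨i, hi1, hi2⟩ := hbc
    have h2 : b ∈ CC en φ x ω := (co_same h hu ih).2
    have h3 : i ∈ JJ en φ x ω := mem_JJ.2 ⟨_, by rw [hi2]; exact Sym2.mem_mk_left _ _, h2⟩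
    exact ih.tail ⟨i, by rw [h i h3]; exact hi1, hi2⟩

theorem CC_same [Fintype ι] {φ : V → ℤ} {x : ℤ} {ω ω' : ι → Bool}
    (h : ∀ i ∈ JJ en φ x ω, ω i = ω' i) : CC en φ x ω' = CC en φ x ω := by
  ext v
  constructor
  · rintro ⟨u, hu, huv⟩
    have hu' : u ∈ CC en φ x ω := ⟨u, hu, Relation.ReflTransGen.refl⟩
    exact ⟨u, hu, co_same' h hu' huv⟩
  · rintro ⟨u, hu, huv⟩
    have hu' : u ∈ CC en φ x ω := ⟨u, hu, Relation.ReflTransGen.refl⟩
    exact ⟨u, hu, (co_same h hu' huv).1⟩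

theorem stop_JJ [Fintype ι] (φ : V → ℤ) (x : ℤ) : Stop (JJ en φ x) := by
  intro ω ω' h
  ext i
  rw [mem_JJ, mem_JJ, CC_same h]

/-- discrete intermediate value theorem along open paths -/
theorem co_level {φ : V → ℤ} (hφ : ∀ i u v, en i = s(u, v) → φ v ≤ φ u + 1) {ω : ι → Bool}
    {u v : V} (huv : Co en ω u v) {x : ℤ} (hu : φ u ≤ x) (hv : x ≤ φ v) :
    ∃ w, φ w = x ∧ Co en ω u w ∧ Co en ω w v := by
  induction huv with
  | refl => exact ⟨u, le_antisymm hu hv, Relation.ReflTransGen.refl, Relation.ReflTransGen.refl⟩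
  | @tail b c hab hbc ih =>
    by_cases hb : x ≤ φ b
    · obtain ⟨w, h1, h2, h3⟩ := ih hb
      exact ⟨w, h1, h2, h3.tail hbc⟩
    · obtain ⟨i, hi1, hi2⟩ := hbc
      have := hφ i b c hi2
      exact ⟨c, by omega, hab.tail ⟨i, hi1, hi2⟩, Relation.ReflTransGen.refl⟩

/-- there is an open path from `S` to `T` -/
def Jn (en : ι → Sym2 V) (S T : Set V) (ω : ι → Bool) : Prop := ∃ u ∈ S, ∃ v ∈ T, Co en ω u v

theorem Jn_same_aux [Fintype ι] {φ : V → ℤ} (hφ : ∀ i u v, en i = s(u, v) → φ v ≤ φ u + 1)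
    {S T : Set V} {x : ℤ} (hS : ∀ u ∈ S, φ u ≤ x) (hT : ∀ v ∈ T, x ≤ φ v) {ω ω' : ι → Bool}
    (h : ∀ i ∈ JJ en φ x ω, ω i = ω' i) (hj : Jn en S T ω) : Jn en S T ω' := by
  obtain ⟨u, hu, v, hv, huv⟩ := hj
  obtain ⟨w, hw, h1, h2⟩ := co_level hφ huv (hS u hu) (hT v hv)
  have hw' : w ∈ CC en φ x ω := ⟨w, hw, Relation.ReflTransGen.refl⟩
  exact ⟨u, hu, v, hv, ((co_same h hw' h1.symm).1).symm.trans (co_same h hw' h2).1⟩

theorem Jn_same [Fintype ι] {φ : V → ℤ} (hφ : ∀ i u v, en i = s(u, v) → φ v ≤ φ u + 1)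
    {S T : Set V} {x : ℤ} (hS : ∀ u ∈ S, φ u ≤ x) (hT : ∀ v ∈ T, x ≤ φ v) {ω ω' : ι → Bool}
    (h : ∀ i ∈ JJ en φ x ω, ω i = ω' i) : Jn en S T ω' ↔ Jn en S T ω := by
  refine ⟨fun hj => ?_, Jn_same_aux hφ hS hT h⟩
  refine Jn_same_aux hφ hS hT (ω := ω') ?_ hj
  intro i hi
  rw [stop_JJ φ x ω ω' h] at hi
  exact (h i hi).symm

open Classical in
/-- the indicator of the connection -/
noncomputable def fJ (en : ι → Sym2 V) (S T : Set V) (ω : ι → Bool) : ℝ :=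
  if Jn en S T ω then 1 else 0

theorem card_touch [Fintype ι] [DecidableEq ι] (φ : V → ℤ) (x : ℤ) (i : ι) {u v : V}
    (h : en i = s(u, v)) [DecidablePred fun ω => u ∈ CC en φ x ω]
    [DecidablePred fun ω => v ∈ CC en φ x ω] [DecidablePred fun ω => i ∈ JJ en φ x ω] :
    (univ.filter fun ω => i ∈ JJ en φ x ω).card ≤
      (univ.filter fun ω => u ∈ CC en φ x ω).card + (univ.filter fun ω => v ∈ CC en φ x ω).card := by
  refine (card_le_card ?_).trans (card_union_le _ _)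
  intro ω hω
  rw [mem_filter, mem_JJ] at hω
  obtain ⟨-, w, hw1, hw2⟩ := hω
  rw [h, Sym2.mem_iff] at hw1
  rw [mem_union, mem_filter, mem_filter]
  rcases hw1 with rfl | rfl
  · exact Or.inl ⟨mem_univ _, hw2⟩
  · exact Or.inr ⟨mem_univ _, hw2⟩

open Classical in
/-- **Noise sensitivity of connections.** -/
theorem conn_stab [Fintype ι] [DecidableEq ι] {φ : V → ℤ} (hφ : ∀ i u v, en i = s(u, v) → φ v ≤ φ u + 1)
    {S T : Set V} {n : ℕ} (hn : 1 ≤ n) (hS : ∀ u ∈ S, φ u ≤ 0) (hT : ∀ v ∈ T, (n : ℤ) ≤ φ v)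
    {δ : ℝ} (hδ0 : 0 ≤ δ)
    (hδ : ∀ i, ∀ v ∈ en i, ∑ x ∈ Finset.Icc (1 : ℤ) n,
      ((univ.filter fun ω : ι → Bool => v ∈ CC en φ x ω).card : ℝ) ≤
        δ * n * (2 : ℝ) ^ Fintype.card ι) {ρ : ℝ} (h0 : 0 ≤ ρ) (h1 : ρ < 1) :
    ∑ x : ι → Bool, ∑ y : ι → Bool, fJ en S T x * fJ en S T y *
      ∏ i, ((1 + ρ * (sg (x i) * sg (y i))) / 4) -
      ((∑ ω, fJ en S T ω) / (2 : ℝ) ^ Fintype.card ι) ^ 2 ≤ (2 * δ) * (ρ / (1 - ρ) ^ 2) := by
  have hcard : ((Finset.Icc (1 : ℤ) n).card : ℝ) = n := by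
    rw [Int.card_Icc]; simp
  refine stab_le (X := Finset.Icc (1 : ℤ) n) (J := fun x => JJ en φ x) ?_ ?_ ?_ ?_ (by positivity)
    ?_ h0 h1
  · intro ω
    unfold fJ
    split_ifs <;> simp
  · exact ⟨1, Finset.mem_Icc.2 ⟨le_rfl, by exact_mod_cast hn⟩⟩
  · intro x _
    exact stop_JJ φ x
  · intro x hx ω ω' h
    rw [Finset.mem_Icc] at hx
    unfold fJ
    rw [if_congr (Jn_same hφ (fun u hu => (hS u hu).trans (by omega))
      (fun v hv => le_trans hx.2 (hT v hv)) h) rfl rfl]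
  · intro i
    obtain ⟨u, v, huv⟩ : ∃ u v, en i = s(u, v) := by
      induction en i with
      | _ u v => exact ⟨u, v, rfl⟩
    have h2 : ∀ x ∈ Finset.Icc (1 : ℤ) n, ((univ.filter fun ω => i ∈ JJ en φ x ω).card : ℝ) ≤
        ((univ.filter fun ω => u ∈ CC en φ x ω).card : ℝ) +
        ((univ.filter fun ω => v ∈ CC en φ x ω).card : ℝ) := by
      intro x _
      exact_mod_cast card_touch φ x i huv
    refine (sum_le_sum h2).trans ?_
    rw [sum_add_distrib, hcard]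
    have h3 := hδ i u (by rw [huv]; exact Sym2.mem_mk_left _ _)
    have h4 := hδ i v (by rw [huv]; exact Sym2.mem_mk_right _ _)
    linarith

end Expl

end Pool.Agent.X136.QC
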