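import Mathlib

set_option autoImplicit false

/-!
# Bond percolation on `ℤ²` in a random environment: definitions
-/

namespace Pool.Agent.X136.QC

open MeasureTheory ProbabilityTheory

/-- Edges of `ℤ²`: `(x, y, false)` joins `(x, y)` and `(x + 1, y)`, `(x, y, true)` joins `(x, y)` and
`(x, y + 1)`. -/
abbrev Edge : Type := ℤ × ℤ × Bool

/-- The two ends of an edge. -/
def ends (e : Edge) : Sym2 (ℤ × ℤ) :=
  s((e.1, e.2.1), if e.2.2 = true then (e.1, e.2.1 + 1) else (e.1 + 1, e.2.1))

/-- Percolation in the environment `q`: the edge `e` is open (`true`) with probability `q e`,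
independently of the other edges. -/
noncomputable def law (q : Edge → unitInterval) : Measure (Edge → Bool) :=
  Measure.infinitePi (fun e => bernoulliMeasure true false (q e))

/-- The law of an environment with independent values of law `ν`. -/
noncomputable def env (ν : Measure unitInterval) : Measure (Edge → unitInterval) :=
  Measure.infinitePi (fun _ => ν)

/-- `E (2 p - 1)²` for `p` of law `ν`; for a law of mean `1 / 2` this is four times the variance, and
it is smaller than `1` unless `ν` is concentrated on `{0, 1}`. -/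
noncomputable def rho (ν : Measure unitInterval) : ℝ := ∫ p, (2 * (p : ℝ) - 1) ^ 2 ∂ν

/-- Critical bond percolation: all edges are open with probability `1 / 2`. -/
noncomputable def crit : Measure (Edge → Bool) := law fun _ => ⟨1/2, by norm_num, by norm_num⟩

/-- `u` and `v` are the two ends of an open edge of `D`. -/
def Step (D : Set Edge) (ω : Edge → Bool) (u v : ℤ × ℤ) : Prop :=
  ∃ e ∈ D, ω e = true ∧ ends e = s(u, v)

/-- Some vertex of `S` is joined to some vertex of `T` by an open path of edges of `D`. -/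
def Joined (D : Set Edge) (S T : Set (ℤ × ℤ)) : Set (Edge → Bool) :=
  {ω | ∃ u ∈ S, ∃ v ∈ T, Relation.ReflTransGen (Step D ω) u v}

/-- The sup distance. -/
def sd (u v : ℤ × ℤ) : ℕ := max (u.1 - v.1).natAbs (u.2 - v.2).natAbs

/-- The edges of the slit strip. The column of the vertex `(u, v)` is `u - v`, its height is
`u + v`. The two ends of the edge have columns in `[-a, b + 1]`; the edges between the columns `0` and
`1` with both ends at height `≥ 0` (those which cross the slit) are removed. -/
def slitStrip (a b : ℕ) : Set Edge :=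
  {e | (∀ u ∈ ends e, -(a : ℤ) ≤ u.1 - u.2 ∧ u.1 - u.2 ≤ b + 1) ∧
    ¬ ∃ u ∈ ends e, ∃ v ∈ ends e, 0 ≤ u.1 + u.2 ∧ 0 ≤ v.1 + v.2 ∧ u.1 - u.2 ≤ 0 ∧ 0 < v.1 - v.2}

/-- The left bank of the slit: column `0`, height `≥ 0`. -/
def leftBank : Set (ℤ × ℤ) := {v | v.1 - v.2 = 0 ∧ 0 ≤ v.1 + v.2}

/-- The right side of the slit strip: column `b + 1`. -/
def rightWall (b : ℕ) : Set (ℤ × ℤ) := {v | v.1 - v.2 = b + 1}

/-- Cardy's function. -/
noncomputable def cardy (x : ℝ) : ℝ :=
  (∫ t in (0:ℝ)..x, (t*(1-t))^(-(2:ℝ)/3)) / ∫ t in (0:ℝ)..1, (t*(1-t))^(-(2:ℝ)/3)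

end Pool.Agent.X136.QC
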