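import Pool.Agent.X136.QC.Walsh
import Pool.Agent.X136.QC.Model
import Pool.Agent.X136.HT.Prob

set_option autoImplicit false

/-!
# Product laws with random parameters
-/

namespace Pool.Agent.X136.QC

open Finset MeasureTheory ProbabilityTheory

variable {E : Type*} [DecidableEq E]

/-- the product law in the environment `q` -/
noncomputable def pl {E : Type*} (q : E → unitInterval) : Measure (E → Bool) :=
  Measure.infinitePi (fun e => bernoulliMeasure true false (q e))

/-- the law of an i.i.d. environment -/
noncomputable def ev (E : Type*) (ν : Measure unitInterval) : Measure (E → unitInterval) :=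
  Measure.infinitePi (fun _ => ν)

instance (q : E → unitInterval) : IsProbabilityMeasure (pl q) := by unfold pl; infer_instance

instance (ν : Measure unitInterval) [IsProbabilityMeasure ν] : IsProbabilityMeasure (ev E ν) := by
  unfold ev; infer_instance

/-- probability of a bit -/
def bq (p : unitInterval) (b : Bool) : ℝ := if b = true then (p : ℝ) else 1 - p

theorem bq_eq (p : unitInterval) (b : Bool) : bq p b = (1 + sg b * (2 * p - 1)) / 2 := by
  cases b <;> simp [bq, sg] <;> ring

theorem bq_nonneg (p : unitInterval) (b : Bool) : 0 ≤ bq p b := by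
  cases b
  · simp [bq]; exact p.2.2
  · simp [bq]; exact p.2.1

theorem bq_le_one (p : unitInterval) (b : Bool) : bq p b ≤ 1 := by
  cases b
  · simp [bq]; exact p.2.1
  · simp [bq]; exact p.2.2

theorem b_real (p : unitInterval) (b : Bool) : (bernoulliMeasure true false p).real {b} = bq p b := by
  unfold Measure.real
  cases b
  · rw [HT.b_false, ENNReal.toReal_ofReal (by linarith [p.2.2])]; simp [bq]
  · rw [HT.b_true, ENNReal.toReal_ofReal p.2.1]; simp [bq]

theorem measurable_bq (b : Bool) : Measurable fun p : unitInterval => bq p b := by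
  cases b
  · have : (fun p : unitInterval => bq p false) = fun p : unitInterval => 1 - (p : ℝ) := by funext p; simp [bq]
    rw [this]
    exact measurable_const.sub measurable_subtype_coe
  · have : (fun p : unitInterval => bq p true) = fun p : unitInterval => (p : ℝ) := by funext p; simp [bq]
    rw [this]
    exact measurable_subtype_coe

/-- the probability of an event which depends on a finite set of bits -/
theorem pl_event (q : E → unitInterval) (W : Finset E) (A : Set (W → Bool))
    [DecidablePred (· ∈ A)] :
    (pl q).real {ω | (fun i : W => ω i) ∈ A} =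
      ∑ x : W → Bool, (if x ∈ A then (1 : ℝ) else 0) * ∏ i : W, bq (q i) (x i) := by
  classical
  have h1 : (pl q).map W.restrict = Measure.pi fun i : W => bernoulliMeasure true false (q i) :=
    Measure.infinitePi_map_restrict _
  have h2 : (pl q).real {ω | (fun i : W => ω i) ∈ A} =
      (Measure.pi fun i : W => bernoulliMeasure true false (q i)).real A := by
    rw [← h1, map_measureReal_apply (Finset.measurable_restrict W) (Set.toFinite A).measurableSet]
    rfl
  rw [h2]
  have h3 : (Measure.pi fun i : W => bernoulliMeasure true false (q i)).real A =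
      ∫ x, (if x ∈ A then (1 : ℝ) else 0)
        ∂(Measure.pi fun i : W => bernoulliMeasure true false (q i)) := by
    have : (fun x : W → Bool => if x ∈ A then (1 : ℝ) else 0) = A.indicator 1 := by
      funext x
      simp [Set.indicator_apply]
    rw [this, integral_indicator_one (Set.toFinite A).measurableSet]
  rw [h3, integral_fintype (Integrable.of_finite)]
  refine sum_congr rfl fun x _ => ?_
  rw [smul_eq_mul, mul_comm]
  congr 1
  unfold Measure.real
  rw [Measure.pi_singleton, ENNReal.toReal_prod]
  exact prod_congr rfl fun i _ => b_real _ _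

/-- averages over the environment -/
theorem ev_prod (ν : Measure unitInterval) [IsProbabilityMeasure ν] (W : Finset E)
    (g : W → unitInterval → ℝ) (hg : ∀ i, Measurable (g i)) :
    ∫ q : E → unitInterval, ∏ i : W, g i (q i) ∂ev E ν = ∏ i : W, ∫ p, g i p ∂ν := by
  have h1 : (ev E ν).map W.restrict = Measure.pi fun _ : W => ν :=
    Measure.infinitePi_map_restrict _
  rw [← integral_fintype_prod_eq_prod (μ := fun _ : W => ν), ← h1,
    integral_map (Finset.measurable_restrict W).aemeasurable]
  · rfl
  · exact (Finset.measurable_prod _ fun i _ => (hg i).comp (measurable_pi_apply i)).aestronglyMeasurable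

theorem integrable_unit {μ : Measure unitInterval} [IsProbabilityMeasure μ] {g : unitInterval → ℝ}
    (hg : Measurable g) {C : ℝ} (hC : ∀ p, |g p| ≤ C) : Integrable g μ :=
  Integrable.of_bound hg.aestronglyMeasurable C (Filter.Eventually.of_forall hC)

theorem rho_nonneg (ν : Measure unitInterval) : 0 ≤ rho ν :=
  integral_nonneg fun p => sq_nonneg _

theorem meas_lin : Measurable fun p : unitInterval => 2 * (p : ℝ) - 1 :=
  (measurable_subtype_coe.const_mul 2).sub_const 1

theorem abs_lin_le (p : unitInterval) : |2 * (p : ℝ) - 1| ≤ 1 := by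
  rw [abs_le]; constructor <;> linarith [p.2.1, p.2.2]

theorem rho_le_one (ν : Measure unitInterval) [IsProbabilityMeasure ν] : rho ν ≤ 1 := by
  unfold rho
  have h : ∫ p, (2 * (p : ℝ) - 1) ^ 2 ∂ν ≤ ∫ _, (1 : ℝ) ∂ν := by
    refine integral_mono (integrable_unit (meas_lin.pow_const 2) (C := 1) fun p => ?_)
      (integrable_const 1) fun p => ?_
    · rw [abs_pow]; exact pow_le_one₀ (abs_nonneg _) (abs_lin_le p)
    · show (2 * (p : ℝ) - 1) ^ 2 ≤ 1
      rw [← sq_abs]; exact pow_le_one₀ (abs_nonneg _) (abs_lin_le p)
  simpa using h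

theorem int_lin {ν : Measure unitInterval} [IsProbabilityMeasure ν]
    (hm : ∫ p, (p : ℝ) ∂ν = 1 / 2) : ∫ p, (2 * (p : ℝ) - 1) ∂ν = 0 := by
  have h1 : Integrable (fun p : unitInterval => (p : ℝ)) ν :=
    integrable_unit measurable_subtype_coe (C := 1) fun p => by
      rw [abs_of_nonneg p.2.1]; exact p.2.2
  rw [integral_sub (h1.const_mul 2) (integrable_const 1), integral_const_mul, hm]
  simp

theorem int_bq {ν : Measure unitInterval} [IsProbabilityMeasure ν]
    (hm : ∫ p, (p : ℝ) ∂ν = 1 / 2) (b : Bool) : ∫ p, bq p b ∂ν = 1 / 2 := by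
  have h1 : Integrable (fun p : unitInterval => 2 * (p : ℝ) - 1) ν :=
    integrable_unit meas_lin abs_lin_le
  have h2 : ∀ p : unitInterval, bq p b = 1 / 2 + (sg b / 2) * (2 * (p : ℝ) - 1) := by
    intro p; rw [bq_eq]; ring
  simp only [h2]
  rw [integral_add (integrable_const _) (h1.const_mul _), integral_const_mul, int_lin hm]
  simp

theorem int_bq_bq {ν : Measure unitInterval} [IsProbabilityMeasure ν]
    (hm : ∫ p, (p : ℝ) ∂ν = 1 / 2) (a b : Bool) :
    ∫ p, bq p a * bq p b ∂ν = (1 + rho ν * (sg a * sg b)) / 4 := by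
  have h1 : Integrable (fun p : unitInterval => 2 * (p : ℝ) - 1) ν :=
    integrable_unit meas_lin abs_lin_le
  have h2 : Integrable (fun p : unitInterval => (2 * (p : ℝ) - 1) ^ 2) ν :=
    integrable_unit (meas_lin.pow_const 2) (C := 1) fun p => by
      rw [abs_pow]; exact pow_le_one₀ (abs_nonneg _) (abs_lin_le p)
  have h3 : ∀ p : unitInterval, bq p a * bq p b = 1 / 4 +
      (((sg a + sg b) / 4) * (2 * (p : ℝ) - 1) + (sg a * sg b / 4) * (2 * (p : ℝ) - 1) ^ 2) := by
    intro p; rw [bq_eq, bq_eq]; ring
  simp only [h3]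
  rw [integral_add (f := fun _ => (1 / 4 : ℝ)) (g := fun p : unitInterval =>
      ((sg a + sg b) / 4) * (2 * (p : ℝ) - 1) + (sg a * sg b / 4) * (2 * (p : ℝ) - 1) ^ 2)
      (integrable_const _) ((h1.const_mul _).add (h2.const_mul _)),
    integral_add (h1.const_mul _) (h2.const_mul _), integral_const_mul, integral_const_mul,
    int_lin hm]
  unfold rho
  simp
  ring

section finite

variable {W : Finset E}

theorem measurable_pl (A : Set (W → Bool)) :
    Measurable fun q : E → unitInterval => (pl q).real {ω | (fun i : W => ω i) ∈ A} := by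
  classical
  simp only [pl_event _ W A]
  refine Finset.measurable_sum _ fun x _ => Measurable.const_mul ?_ _
  exact Finset.measurable_prod _ fun i _ => (measurable_bq (x i)).comp (measurable_pi_apply _)

/-- the fair law -/
noncomputable def fair (E : Type*) : Measure (E → Bool) := pl fun _ => ⟨1/2, by norm_num, by norm_num⟩

instance : IsProbabilityMeasure (fair E) := by unfold fair; infer_instance

theorem fair_event (W : Finset E) (A : Set (W → Bool)) [DecidablePred (· ∈ A)] :
    (fair E).real {ω | (fun i : W => ω i) ∈ A} =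
      (∑ x : W → Bool, (if x ∈ A then (1 : ℝ) else 0)) / 2 ^ Fintype.card W := by
  unfold fair
  rw [pl_event, sum_div]
  refine sum_congr rfl fun x _ => ?_
  have : ∀ i : W, bq ⟨1/2, by norm_num, by norm_num⟩ (x i) = 1 / 2 := by
    intro i
    cases x i <;> simp [bq] <;> norm_num
  rw [prod_congr rfl fun i _ => this i, prod_const, card_univ]
  rw [one_div, inv_pow, div_eq_mul_inv]

theorem int_pl {ν : Measure unitInterval} [IsProbabilityMeasure ν]
    (hm : ∫ p, (p : ℝ) ∂ν = 1 / 2) (A : Set (W → Bool)) :
    ∫ q : E → unitInterval, (pl q).real {ω | (fun i : W => ω i) ∈ A} ∂ev E ν =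
      (fair E).real {ω | (fun i : W => ω i) ∈ A} := by
  classical
  simp only [pl_event _ W A]
  rw [fair_event, integral_finsetSum]
  · rw [sum_div]
    refine sum_congr rfl fun x _ => ?_
    rw [integral_const_mul, ev_prod ν W (fun i p => bq p (x i)) fun i => measurable_bq _,
      prod_congr rfl fun i _ => int_bq hm (x i), prod_const, card_univ]
    rw [one_div, inv_pow, div_eq_mul_inv]
  · intro x _
    refine Integrable.const_mul ?_ _
    refine Integrable.of_bound (Finset.measurable_prod univ fun i _ =>
      (measurable_bq (x i)).comp (measurable_pi_apply (i : E))).aestronglyMeasurable 1 ?_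
    refine Filter.Eventually.of_forall fun q => ?_
    rw [Real.norm_eq_abs, abs_of_nonneg (prod_nonneg fun i _ => bq_nonneg _ _)]
    exact prod_le_one (fun i _ => bq_nonneg _ _) fun i _ => bq_le_one _ _

theorem int_pl_sq {ν : Measure unitInterval} [IsProbabilityMeasure ν]
    (hm : ∫ p, (p : ℝ) ∂ν = 1 / 2) (A : Set (W → Bool)) [DecidablePred (· ∈ A)] :
    ∫ q : E → unitInterval, (pl q).real {ω | (fun i : W => ω i) ∈ A} ^ 2 ∂ev E ν =
      ∑ x : W → Bool, ∑ y : W → Bool, (if x ∈ A then (1 : ℝ) else 0) *
        (if y ∈ A then (1 : ℝ) else 0) * ∏ i : W, ((1 + rho ν * (sg (x i) * sg (y i))) / 4) := by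
  have h1 : ∀ q : E → unitInterval, (pl q).real {ω | (fun i : W => ω i) ∈ A} ^ 2 =
      ∑ x : W → Bool, ∑ y : W → Bool, (if x ∈ A then (1 : ℝ) else 0) *
        (if y ∈ A then (1 : ℝ) else 0) * ∏ i : W, (bq (q i) (x i) * bq (q i) (y i)) := by
    intro q
    rw [pl_event q W A, sq, sum_mul_sum]
    refine sum_congr rfl fun x _ => sum_congr rfl fun y _ => ?_
    rw [prod_mul_distrib]
    ring
  simp only [h1]
  have hint : ∀ x y : W → Bool, Integrable (fun q : E → unitInterval =>
      (if x ∈ A then (1 : ℝ) else 0) *
        (if y ∈ A then (1 : ℝ) else 0) * ∏ i : W, (bq (q i) (x i) * bq (q i) (y i))) (ev E ν) := by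
    intro x y
    refine Integrable.const_mul ?_ _
    refine Integrable.of_bound (Finset.measurable_prod univ fun i _ =>
      ((measurable_bq (x i)).comp (measurable_pi_apply (i : E))).mul
      ((measurable_bq (y i)).comp (measurable_pi_apply (i : E)))).aestronglyMeasurable 1 ?_
    refine Filter.Eventually.of_forall fun q => ?_
    rw [Real.norm_eq_abs, abs_of_nonneg (prod_nonneg fun i _ =>
      mul_nonneg (bq_nonneg _ _) (bq_nonneg _ _))]
    exact prod_le_one (fun i _ => mul_nonneg (bq_nonneg _ _) (bq_nonneg _ _)) fun i _ =>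
      mul_le_one₀ (bq_le_one _ _) (bq_nonneg _ _) (bq_le_one _ _)
  rw [integral_finsetSum _ fun x _ => integrable_finsetSum _ fun y _ => hint x y]
  refine sum_congr rfl fun x _ => ?_
  rw [integral_finsetSum _ fun y _ => hint x y]
  refine sum_congr rfl fun y _ => ?_
  rw [integral_const_mul, ev_prod ν W (fun i p => bq p (x i) * bq p (y i)) fun i =>
    (measurable_bq _).mul (measurable_bq _), prod_congr rfl fun i _ => int_bq_bq hm (x i) (y i)]

/-- the variance over the environment -/
theorem var_eq {ν : Measure unitInterval} [IsProbabilityMeasure ν]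
    (hm : ∫ p, (p : ℝ) ∂ν = 1 / 2) (A : Set (W → Bool)) [DecidablePred (· ∈ A)] :
    ∫ q : E → unitInterval, ((pl q).real {ω | (fun i : W => ω i) ∈ A} -
      (fair E).real {ω | (fun i : W => ω i) ∈ A}) ^ 2 ∂ev E ν =
      ∑ x : W → Bool, ∑ y : W → Bool, (if x ∈ A then (1 : ℝ) else 0) *
        (if y ∈ A then (1 : ℝ) else 0) * ∏ i : W, ((1 + rho ν * (sg (x i) * sg (y i))) / 4) -
      ((∑ x : W → Bool, (if x ∈ A then (1 : ℝ) else 0)) / 2 ^ Fintype.card W) ^ 2 := by
  rw [← int_pl_sq hm A, ← fair_event]
  set c := (fair E).real {ω | (fun i : W => ω i) ∈ A} with hc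
  have hb : ∀ q : E → unitInterval, |(pl q).real {ω | (fun i : W => ω i) ∈ A}| ≤ 1 := by
    intro q
    rw [abs_of_nonneg measureReal_nonneg]
    exact measureReal_le_one
  have i1 : Integrable (fun q : E → unitInterval => (pl q).real {ω | (fun i : W => ω i) ∈ A})
      (ev E ν) :=
    Integrable.of_bound (measurable_pl A).aestronglyMeasurable 1 (Filter.Eventually.of_forall hb)
  have i2 : Integrable (fun q : E → unitInterval => (pl q).real {ω | (fun i : W => ω i) ∈ A} ^ 2)
      (ev E ν) :=
    Integrable.of_bound ((measurable_pl A).pow_const 2).aestronglyMeasurable 1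
      (Filter.Eventually.of_forall fun q => by
        rw [Real.norm_eq_abs, abs_pow]; exact pow_le_one₀ (abs_nonneg _) (hb q))
  have h1 : ∀ q : E → unitInterval, ((pl q).real {ω | (fun i : W => ω i) ∈ A} - c) ^ 2 =
      ((pl q).real {ω | (fun i : W => ω i) ∈ A} ^ 2 -
        (2 * c) * (pl q).real {ω | (fun i : W => ω i) ∈ A}) + c ^ 2 := by
    intro q; ring
  simp only [h1]
  rw [integral_add (f := fun q : E → unitInterval => (pl q).real {ω | (fun i : W => ω i) ∈ A} ^ 2 -
        (2 * c) * (pl q).real {ω | (fun i : W => ω i) ∈ A}) (g := fun _ => c ^ 2)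
      (i2.sub (i1.const_mul _)) (integrable_const _), integral_sub i2 (i1.const_mul _),
    integral_const_mul, int_pl hm A]
  simp
  ring

end finite

end Pool.Agent.X136.QC
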