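import Pool.Agent.X136.QC.Expl
import Pool.Agent.X136.QC.Law

set_option autoImplicit false

/-!
# Connections in subsets of the square lattice
-/

namespace Pool.Agent.X136.QC

open Finset MeasureTheory ProbabilityTheory Filter Topology

theorem sd_self (u : ℤ × ℤ) : sd u u = 0 := by simp [sd]

theorem sd_comm (u v : ℤ × ℤ) : sd u v = sd v u := by
  unfold sd; omega

theorem sd_tri (u v w : ℤ × ℤ) : sd u w ≤ sd u v + sd v w := by
  unfold sd; omega

theorem sd_ends {e : Edge} {u v : ℤ × ℤ} (h : ends e = s(u, v)) : sd u v ≤ 1 := by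
  obtain ⟨x, y, b⟩ := e
  unfold ends at h
  rw [Sym2.eq_iff] at h
  unfold sd
  cases b
  · simp only [Bool.false_eq_true, if_false] at h
    rcases h with ⟨h1, h2⟩ | ⟨h1, h2⟩ <;> rw [← h1, ← h2] <;> simp only <;> omega
  · simp only [if_true] at h
    rcases h with ⟨h1, h2⟩ | ⟨h1, h2⟩ <;> rw [← h1, ← h2] <;> simp only <;> omega

/-- distance to a set -/
noncomputable def lev (S : Set (ℤ × ℤ)) (v : ℤ × ℤ) : ℕ := sInf {m | ∃ s ∈ S, sd v s ≤ m}

theorem lev_spec {S : Set (ℤ × ℤ)} (hS : S.Nonempty) (v : ℤ × ℤ) : ∃ s ∈ S, sd v s ≤ lev S v := by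
  obtain ⟨s, hs⟩ := hS
  exact Nat.sInf_mem (s := {m | ∃ s ∈ S, sd v s ≤ m}) ⟨sd v s, s, hs, le_rfl⟩

theorem lev_le {S : Set (ℤ × ℤ)} {s : ℤ × ℤ} (hs : s ∈ S) (v : ℤ × ℤ) : lev S v ≤ sd v s :=
  Nat.sInf_le ⟨s, hs, le_rfl⟩

theorem lev_lip {S : Set (ℤ × ℤ)} (hS : S.Nonempty) (u v : ℤ × ℤ) :
    lev S u ≤ sd u v + lev S v := by
  obtain ⟨s, hs, h⟩ := lev_spec hS v
  exact ((lev_le hs u).trans (sd_tri u v s)).trans (by omega)

/-- the ends of the edges of a finite set -/
def enW (W : Finset Edge) (i : W) : Sym2 (ℤ × ℤ) := ends i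

/-- the connection event of a finite set of edges -/
def EV (W : Finset Edge) (S T : Set (ℤ × ℤ)) : Set (Edge → Bool) :=
  {ω | (fun i : W => ω i) ∈ {x : W → Bool | Jn (enW W) S T x}}

open Classical in
/-- boxes -/
noncomputable def WN (D : Set Edge) (N : ℕ) : Finset Edge :=
  ((Finset.Icc (-(N : ℤ)) N) ×ˢ ((Finset.Icc (-(N : ℤ)) N) ×ˢ (univ : Finset Bool))).filter
    (fun e => e ∈ D)

theorem mem_WN {D : Set Edge} {N : ℕ} {e : Edge} : e ∈ WN D N ↔
    (-(N : ℤ) ≤ e.1 ∧ e.1 ≤ N) ∧ (-(N : ℤ) ≤ e.2.1 ∧ e.2.1 ≤ N) ∧ e ∈ D := by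
  classical
  unfold WN
  simp only [mem_filter, mem_product, Finset.mem_Icc, mem_univ, and_true]
  tauto

theorem WN_mono (D : Set Edge) : Monotone (WN D) := by
  intro N M h e he
  rw [mem_WN] at he ⊢
  have : (N : ℤ) ≤ M := by exact_mod_cast h
  obtain ⟨h1, h2, h3⟩ := he
  exact ⟨by omega, by omega, h3⟩

theorem exists_WN {D : Set Edge} {e : Edge} (he : e ∈ D) : ∃ N, e ∈ WN D N := by
  refine ⟨max e.1.natAbs e.2.1.natAbs, ?_⟩
  rw [mem_WN]
  refine ⟨by omega, by omega, he⟩

theorem co_mono {W W' : Finset Edge} (h : W ⊆ W') {ω : Edge → Bool} {u v : ℤ × ℤ}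
    (huv : Co (enW W) (fun i : W => ω i) u v) : Co (enW W') (fun i : W' => ω i) u v := by
  induction huv with
  | refl => exact Relation.ReflTransGen.refl
  | tail _ hbc ih =>
    obtain ⟨i, hi1, hi2⟩ := hbc
    exact ih.tail ⟨⟨i.1, h i.2⟩, hi1, hi2⟩

theorem EV_mono (D : Set Edge) (S T : Set (ℤ × ℤ)) : Monotone fun N => EV (WN D N) S T := by
  intro N M h ω hω
  obtain ⟨u, hu, v, hv, huv⟩ := hω
  exact ⟨u, hu, v, hv, co_mono (WN_mono D h) huv⟩

theorem co_of_step {D : Set Edge} {ω : Edge → Bool} {u v : ℤ × ℤ}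
    (h : Relation.ReflTransGen (Step D ω) u v) :
    ∃ N, Co (enW (WN D N)) (fun i : WN D N => ω i) u v := by
  induction h with
  | refl => exact ⟨0, Relation.ReflTransGen.refl⟩
  | tail _ hbc ih =>
    obtain ⟨e, he, ho, hs⟩ := hbc
    obtain ⟨N, hN⟩ := ih
    obtain ⟨M, hM⟩ := exists_WN he
    refine ⟨max N M, (co_mono (WN_mono D (le_max_left N M)) hN).tail
      ⟨⟨e, WN_mono D (le_max_right N M) hM⟩, ho, hs⟩⟩

theorem step_of_co {D : Set Edge} {W : Finset Edge} (hW : ∀ e ∈ W, e ∈ D) {ω : Edge → Bool}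
    {u v : ℤ × ℤ} (h : Co (enW W) (fun i : W => ω i) u v) :
    Relation.ReflTransGen (Step D ω) u v := by
  induction h with
  | refl => exact Relation.ReflTransGen.refl
  | tail _ hbc ih =>
    obtain ⟨i, hi1, hi2⟩ := hbc
    exact ih.tail ⟨i.1, hW _ i.2, hi1, hi2⟩

theorem joined_eq (D : Set Edge) (S T : Set (ℤ × ℤ)) : Joined D S T = ⋃ N, EV (WN D N) S T := by
  ext ω
  rw [Set.mem_iUnion]
  constructor
  · rintro ⟨u, hu, v, hv, huv⟩
    obtain ⟨N, hN⟩ := co_of_step huv
    exact ⟨N, u, hu, v, hv, hN⟩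
  · rintro ⟨N, u, hu, v, hv, huv⟩
    exact ⟨u, hu, v, hv, step_of_co (fun e he => (mem_WN.1 he).2.2) huv⟩

theorem real_tendsto (μ : Measure (Edge → Bool)) [IsProbabilityMeasure μ] (D : Set Edge)
    (S T : Set (ℤ × ℤ)) :
    Tendsto (fun N => μ.real (EV (WN D N) S T)) atTop (𝓝 (μ.real (Joined D S T))) := by
  rw [joined_eq]
  have h := tendsto_measure_iUnion_atTop (μ := μ) (EV_mono D S T)
  exact (ENNReal.tendsto_toReal (measure_ne_top _ _)).comp h

theorem law_eq (q : Edge → unitInterval) : law q = pl q := rfl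

theorem crit_eq : crit = fair Edge := rfl

theorem env_eq (ν : Measure unitInterval) : env ν = ev Edge ν := rfl

instance (q : Edge → unitInterval) : IsProbabilityMeasure (law q) := by
  unfold law; infer_instance

instance : IsProbabilityMeasure crit := by unfold crit; infer_instance

instance (ν : Measure unitInterval) [IsProbabilityMeasure ν] : IsProbabilityMeasure (env ν) := by
  unfold env; infer_instance

theorem measurable_law (D : Set Edge) (S T : Set (ℤ × ℤ)) :
    Measurable fun q : Edge → unitInterval => (law q).real (Joined D S T) := by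
  refine measurable_of_tendsto_metrizable (f := fun N q => (law q).real (EV (WN D N) S T)) ?_ ?_
  · intro N
    exact measurable_pl _
  · rw [tendsto_pi_nhds]
    intro q
    exact real_tendsto (law q) D S T

/-- the variance bound passes to the limit -/
theorem var_le_of_finite {ν : Measure unitInterval} [IsProbabilityMeasure ν] {D : Set Edge}
    {S T : Set (ℤ × ℤ)} {B : ℝ}
    (h : ∀ N, ∫ q, ((law q).real (EV (WN D N) S T) - crit.real (EV (WN D N) S T)) ^ 2 ∂env ν ≤ B) :
    ∫ q, ((law q).real (Joined D S T) - crit.real (Joined D S T)) ^ 2 ∂env ν ≤ B := by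
  have hb : ∀ N (q : Edge → unitInterval),
      |(law q).real (EV (WN D N) S T) - crit.real (EV (WN D N) S T)| ≤ 1 := by
    intro N q
    have h1 : (law q).real (EV (WN D N) S T) ≤ 1 := measureReal_le_one
    have h2 : crit.real (EV (WN D N) S T) ≤ 1 := measureReal_le_one
    have h3 : 0 ≤ (law q).real (EV (WN D N) S T) := measureReal_nonneg
    have h4 : 0 ≤ crit.real (EV (WN D N) S T) := measureReal_nonneg
    rw [abs_le]; constructor <;> linarith
  refine le_of_tendsto' (tendsto_integral_of_dominated_convergence (fun _ => (1 : ℝ)) ?_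
    (integrable_const 1) ?_ ?_) h
  · intro N
    exact (((measurable_pl (E := Edge) (W := WN D N) _).sub_const _).pow_const 2).aestronglyMeasurable
  · intro N
    refine Eventually.of_forall fun q => ?_
    rw [Real.norm_eq_abs, abs_pow]
    exact pow_le_one₀ (abs_nonneg _) (hb N q)
  · refine Eventually.of_forall fun q => ?_
    exact ((real_tendsto (law q) D S T).sub (real_tendsto crit D S T)).pow 2

end Pool.Agent.X136.QC
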