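import Pool.Agent.X136.QC.Arm

set_option autoImplicit false

/-!
# Limits in random environments
-/

namespace Pool.Agent.X136.QC

open Finset MeasureTheory ProbabilityTheory Filter Topology

/-- difference of the quenched and the annealed probability -/
noncomputable def dd (D : Set Edge) (S T : Set (ℤ × ℤ)) (q : Edge → unitInterval) : ℝ :=
  (law q).real (Joined D S T) - crit.real (Joined D S T)

theorem measurable_dd (D : Set Edge) (S T : Set (ℤ × ℤ)) : Measurable (dd D S T) :=
  (measurable_law D S T).sub_const _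

theorem abs_dd_le (D : Set Edge) (S T : Set (ℤ × ℤ)) (q : Edge → unitInterval) :
    |dd D S T q| ≤ 1 := by
  have h1 : (law q).real (Joined D S T) ≤ 1 := measureReal_le_one
  have h2 : crit.real (Joined D S T) ≤ 1 := measureReal_le_one
  have h3 : 0 ≤ (law q).real (Joined D S T) := measureReal_nonneg
  have h4 : 0 ≤ crit.real (Joined D S T) := measureReal_nonneg
  unfold dd
  rw [abs_le]; constructor <;> linarith

theorem dd_sq_le (D : Set Edge) (S T : Set (ℤ × ℤ)) (q : Edge → unitInterval) :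
    dd D S T q ^ 2 ≤ 1 := by
  rw [← sq_abs]; exact pow_le_one₀ (abs_nonneg _) (abs_dd_le D S T q)

variable {ν : Measure unitInterval} [IsProbabilityMeasure ν]

theorem integrable_dd_sq (D : Set Edge) (S T : Set (ℤ × ℤ)) :
    Integrable (fun q => dd D S T q ^ 2) (env ν) :=
  Integrable.of_bound ((measurable_dd D S T).pow_const 2).aestronglyMeasurable 1
    (Eventually.of_forall fun q => by
      rw [Real.norm_eq_abs, abs_pow]; exact pow_le_one₀ (abs_nonneg _) (abs_dd_le D S T q))

theorem int_dd_le_one (D : Set Edge) (S T : Set (ℤ × ℤ)) : ∫ q, dd D S T q ^ 2 ∂env ν ≤ 1 := by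
  have h : ∫ q, dd D S T q ^ 2 ∂env ν ≤ ∫ _, (1 : ℝ) ∂env ν :=
    integral_mono (integrable_dd_sq D S T) (integrable_const 1) fun q => dd_sq_le D S T q
  simpa using h

/-- Chebyshev -/
theorem cheb {D : Set Edge} {S T : Set (ℤ × ℤ)} {ε : ℝ} (hε : 0 < ε) :
    (env ν).real {q | ε ≤ |dd D S T q|} ≤ (∫ q, dd D S T q ^ 2 ∂env ν) / ε ^ 2 := by
  rw [le_div_iff₀ (by positivity)]
  have h := mul_meas_ge_le_integral_of_nonneg (μ := env ν) (f := fun q => dd D S T q ^ 2)
    (Eventually.of_forall fun q => sq_nonneg _) (integrable_dd_sq D S T) (ε ^ 2)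
  have e : {q | ε ≤ |dd D S T q|} = {q | ε ^ 2 ≤ dd D S T q ^ 2} := by
    ext q
    simp only [Set.mem_ofPred_eq]
    rw [← sq_abs (dd D S T q), sq_le_sq₀ hε.le (abs_nonneg _)]
  rw [e, mul_comm]
  exact h

/-- almost sure convergence when the variances are summable -/
theorem ae_tendsto {D : ℕ → Set Edge} {S T : ℕ → Set (ℤ × ℤ)} {c : ℕ → ℝ} (hc : Summable c)
    (h : ∀ k, ∫ q, dd (D k) (S k) (T k) q ^ 2 ∂env ν ≤ c k) :
    ∀ᵐ q ∂env ν, Tendsto (fun k => dd (D k) (S k) (T k) q) atTop (𝓝 0) := by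
  have hc0 : ∀ k, 0 ≤ c k := fun k => (integral_nonneg fun q => sq_nonneg _).trans (h k)
  have h1 : ∫⁻ q, ∑' k, ENNReal.ofReal (dd (D k) (S k) (T k) q ^ 2) ∂env ν ≠ ⊤ := by
    rw [lintegral_tsum fun k => ((measurable_dd (D k) (S k) (T k)).pow_const 2).ennreal_ofReal.aemeasurable]
    have h2 : ∀ k, ∫⁻ q, ENNReal.ofReal (dd (D k) (S k) (T k) q ^ 2) ∂env ν ≤
        ENNReal.ofReal (c k) := by
      intro k
      rw [← ofReal_integral_eq_lintegral_ofReal (integrable_dd_sq _ _ _)
        (Eventually.of_forall fun q => sq_nonneg _)]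
      exact ENNReal.ofReal_le_ofReal (h k)
    refine ne_top_of_le_ne_top ?_ (ENNReal.tsum_le_tsum h2)
    rw [← ENNReal.ofReal_tsum_of_nonneg hc0 hc]
    exact ENNReal.ofReal_ne_top
  have h2 := ae_lt_top (Measurable.ennreal_tsum fun k =>
    ((measurable_dd (D k) (S k) (T k)).pow_const 2).ennreal_ofReal) h1
  filter_upwards [h2] with q hq
  have h3 := ENNReal.tendsto_atTop_zero_of_tsum_ne_top hq.ne
  have h4 : Tendsto (fun k => dd (D k) (S k) (T k) q ^ 2) atTop (𝓝 0) := by
    have h5 := (ENNReal.tendsto_toReal (a := 0) ENNReal.zero_ne_top).comp h3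
    rw [ENNReal.toReal_zero] at h5
    refine h5.congr fun k => ?_
    simp only [Function.comp]
    exact ENNReal.toReal_ofReal (sq_nonneg _)
  have h5 : Tendsto (fun k => |dd (D k) (S k) (T k) q|) atTop (𝓝 0) := by
    have h6 := (Real.continuous_sqrt.tendsto 0).comp h4
    rw [Real.sqrt_zero] at h6
    refine h6.congr fun k => ?_
    simp only [Function.comp]
    exact Real.sqrt_sq_eq_abs _
  exact tendsto_zero_iff_abs_tendsto_zero _ |>.2 h5

/-- convergence of the variances to zero -/
theorem prob_tendsto {D : ℕ → Set Edge} {S T : ℕ → Set (ℤ × ℤ)}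
    (h : Tendsto (fun k => ∫ q, dd (D k) (S k) (T k) q ^ 2 ∂env ν) atTop (𝓝 0)) {ε : ℝ}
    (hε : 0 < ε) :
    Tendsto (fun k => (env ν).real {q | ε ≤ |dd (D k) (S k) (T k) q|}) atTop (𝓝 0) := by
  have h1 := h.div_const (ε ^ 2)
  rw [zero_div] at h1
  exact squeeze_zero (fun k => measureReal_nonneg) (fun k => cheb hε) h1

/-- limits in probability -/
theorem prob_iff {D : ℕ → Set Edge} {S T : ℕ → Set (ℤ × ℤ)}
    (h : Tendsto (fun k => ∫ q, dd (D k) (S k) (T k) q ^ 2 ∂env ν) atTop (𝓝 0)) (Q : ℝ) :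
    Tendsto (fun k => crit.real (Joined (D k) (S k) (T k))) atTop (𝓝 Q) ↔
      ∀ ε : ℝ, 0 < ε → Tendsto (fun k => (env ν).real
        {q | ε ≤ |(law q).real (Joined (D k) (S k) (T k)) - Q|}) atTop (𝓝 0) := by
  constructor
  · intro hQ ε hε
    have h1 := prob_tendsto h (half_pos hε)
    refine squeeze_zero' (Eventually.of_forall fun k => measureReal_nonneg) ?_ h1
    rw [Metric.tendsto_atTop] at hQ
    obtain ⟨N, hN⟩ := hQ (ε / 2) (half_pos hε)
    filter_upwards [eventually_ge_atTop N] with k hk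
    have h2 := hN k hk
    rw [Real.dist_eq] at h2
    refine measureReal_mono ?_
    intro q hq
    simp only [Set.mem_ofPred_eq] at hq ⊢
    unfold dd
    have h3 := abs_sub_le ((law q).real (Joined (D k) (S k) (T k)))
      (crit.real (Joined (D k) (S k) (T k))) Q
    linarith
  · intro hQ
    rw [Metric.tendsto_atTop]
    intro ε hε
    have h1 := (prob_tendsto h (half_pos hε)).add (hQ (ε / 2) (half_pos hε))
    rw [add_zero, Metric.tendsto_atTop] at h1
    obtain ⟨N, hN⟩ := h1 1 one_pos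
    refine ⟨N, fun k hk => ?_⟩
    rw [Real.dist_eq]
    by_contra hcon
    push Not at hcon
    have h2 := hN k hk
    rw [Real.dist_eq, sub_zero] at h2
    have h3 := (le_abs_self _).trans_lt h2
    have h4 : (Set.univ : Set (Edge → unitInterval)) ⊆
        {q | ε / 2 ≤ |dd (D k) (S k) (T k) q|} ∪
          {q | ε / 2 ≤ |(law q).real (Joined (D k) (S k) (T k)) - Q|} := by
      intro q _
      by_contra hq
      simp only [Set.mem_union, Set.mem_ofPred_eq, not_or, not_le] at hq
      obtain ⟨a1, a2⟩ := hq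
      unfold dd at a1
      have h5 := abs_sub_le (crit.real (Joined (D k) (S k) (T k)))
        ((law q).real (Joined (D k) (S k) (T k))) Q
      rw [abs_sub_comm (crit.real (Joined (D k) (S k) (T k)))
        ((law q).real (Joined (D k) (S k) (T k)))] at h5
      linarith
    have h5 := (measureReal_mono (μ := env ν) h4).trans (measureReal_union_le _ _)
    rw [probReal_univ] at h5
    linarith

/-- almost sure limits -/
theorem ae_iff_lim {D : ℕ → Set Edge} {S T : ℕ → Set (ℤ × ℤ)}
    (h : ∀ᵐ q ∂env ν, Tendsto (fun k => dd (D k) (S k) (T k) q) atTop (𝓝 0)) (Q : ℝ) :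
    Tendsto (fun k => crit.real (Joined (D k) (S k) (T k))) atTop (𝓝 Q) ↔
      ∀ᵐ q ∂env ν, Tendsto (fun k => (law q).real (Joined (D k) (S k) (T k))) atTop (𝓝 Q) := by
  constructor
  · intro hQ
    filter_upwards [h] with q hq
    have := hq.add hQ
    rw [zero_add] at this
    refine this.congr fun k => ?_
    unfold dd
    ring
  · intro hQ
    obtain ⟨q, hq1, hq2⟩ := (h.and hQ).exists
    have := hq2.sub hq1
    rw [sub_zero] at this
    refine this.congr fun k => ?_
    unfold dd
    ring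

end Pool.Agent.X136.QC
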