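import Pool.Agent.X136.QC.Lim
import Pool.Agent.H980R4.Rate4
import Pool.Agent.H31C.Main

set_option autoImplicit false

/-!
# Slit strips
-/

namespace Pool.Agent.X136.QC

open MeasureTheory ProbabilityTheory Filter Topology
open Pool.Agent.H988R2.Perc (coin perc OpenAdj)
open Pool.Agent.H863R4 (SAdj SCross cardyF scross_mono_left scross_anti_right)

theorem coin_eq : coin = bernoulliMeasure true false ⟨1/2, by norm_num, by norm_num⟩ := by
  refine Measure.ext_of_singleton fun b => ?_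
  unfold coin
  rw [PMF.toMeasure_apply_singleton _ _ (measurableSet_singleton b), PMF.uniformOfFintype_apply,
    Fintype.card_bool]
  cases b
  · rw [HT.b_false]
    simp only
    rw [show (1 - 1 / 2 : ℝ) = (2 : ℝ)⁻¹ by norm_num, ENNReal.ofReal_inv_of_pos (by norm_num)]
    norm_num
  · rw [HT.b_true]
    simp only
    rw [show (1 / 2 : ℝ) = (2 : ℝ)⁻¹ by norm_num, ENNReal.ofReal_inv_of_pos (by norm_num)]
    norm_num

theorem crit_perc : crit = perc := by
  unfold crit law perc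
  rw [coin_eq]

theorem openAdj_iff (ω : Edge → Bool) (x y : ℤ × ℤ) :
    OpenAdj ω x y ↔ ∃ e, ω e = true ∧ ends e = s(x, y) := by
  constructor
  · rintro (⟨h1, h2⟩ | ⟨h1, h2⟩ | ⟨h1, h2⟩ | ⟨h1, h2⟩)
    · refine ⟨_, h2, ?_⟩
      rw [h1]; simp [ends]
    · refine ⟨_, h2, ?_⟩
      rw [h1]; simp [ends]
    · refine ⟨_, h2, ?_⟩
      rw [h1]; simp [ends]
    · refine ⟨_, h2, ?_⟩
      rw [h1]; simp [ends]
  · rintro ⟨⟨u, v, b⟩, h1, h2⟩
    unfold ends at h2
    rw [Sym2.eq_iff] at h2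
    cases b
    · simp only [Bool.false_eq_true, if_false] at h2
      rcases h2 with ⟨h3, h4⟩ | ⟨h3, h4⟩
      · left
        rw [← h3, ← h4]
        exact ⟨rfl, h1⟩
      · right; left
        rw [← h3, ← h4]
        exact ⟨rfl, h1⟩
    · simp only [if_true] at h2
      rcases h2 with ⟨h3, h4⟩ | ⟨h3, h4⟩
      · right; right; left
        rw [← h3, ← h4]
        exact ⟨rfl, h1⟩
      · right; right; right
        rw [← h3, ← h4]
        exact ⟨rfl, h1⟩

theorem step_iff (a b : ℕ) (ω : Edge → Bool) (x y : ℤ × ℤ) :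
    Step (slitStrip a b) ω x y ↔ SAdj a b ω x y := by
  unfold Step SAdj
  rw [openAdj_iff]
  constructor
  · rintro ⟨e, ⟨h1, h2⟩, h3, h4⟩
    have hx := h1 x (by rw [h4]; exact Sym2.mem_mk_left _ _)
    have hy := h1 y (by rw [h4]; exact Sym2.mem_mk_right _ _)
    refine ⟨⟨e, h3, h4⟩, hx.1, hx.2, hy.1, hy.2, ?_⟩
    rintro ⟨g1, g2, g3 | g3⟩
    · exact h2 ⟨x, by rw [h4]; exact Sym2.mem_mk_left _ _, y, by rw [h4]; exact Sym2.mem_mk_right _ _,
        g1, g2, g3.1, g3.2⟩
    · exact h2 ⟨y, by rw [h4]; exact Sym2.mem_mk_right _ _, x, by rw [h4]; exact Sym2.mem_mk_left _ _,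
        g2, g1, g3.1, g3.2⟩
  · rintro ⟨⟨e, h3, h4⟩, h5, h6, h7, h8, h9⟩
    refine ⟨e, ⟨?_, ?_⟩, h3, h4⟩
    · intro u hu
      rw [h4, Sym2.mem_iff] at hu
      rcases hu with rfl | rfl
      · exact ⟨h5, h6⟩
      · exact ⟨h7, h8⟩
    · rintro ⟨u, hu, v, hv, g1, g2, g3, g4⟩
      rw [h4, Sym2.mem_iff] at hu hv
      apply h9
      rcases hu with rfl | rfl <;> rcases hv with rfl | rfl
      · omega
      · exact ⟨g1, g2, Or.inl ⟨g3, g4⟩⟩
      · exact ⟨g2, g1, Or.inr ⟨g3, g4⟩⟩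
      · omega

theorem joined_slit (a b : ℕ) : Joined (slitStrip a b) leftBank (rightWall b) = SCross a b := by
  have hst : ∀ ω, Step (slitStrip a b) ω = SAdj a b ω := by
    intro ω; funext x y; exact propext (step_iff a b ω x y)
  ext ω
  constructor
  · rintro ⟨x, hx, y, hy, h⟩
    rw [hst] at h
    exact ⟨x, y, hx.1, hx.2, hy, h⟩
  · rintro ⟨x, y, h1, h2, h3, h4⟩
    rw [← hst] at h4
    exact ⟨x, ⟨h1, h2⟩, y, h3, h4⟩

theorem slit_dist {b n : ℕ} (h : 2 * n ≤ b + 1) : ∀ u ∈ leftBank, ∀ v ∈ rightWall b, n ≤ sd u v := by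
  rintro u ⟨hu, -⟩ v hv
  have hv' : v.1 - v.2 = b + 1 := hv
  unfold sd
  omega

/-- the limit for critical percolation -/
theorem crit_slit {a b : ℕ → ℕ} {x : ℝ} (hx : x ∈ Set.Icc (0:ℝ) 1)
    (h1 : Tendsto (fun n => (a n : ℝ) + b n) atTop atTop)
    (h2 : Tendsto (fun n => (a n : ℝ) / (a n + b n)) atTop (𝓝 x)) :
    Tendsto (fun n => crit.real (SCross (a n) (b n))) atTop (𝓝 (cardy x)) := by
  rw [crit_perc]
  exact Pool.Agent.H863R4.cross_tendsto Pool.Agent.H31C.exact_cardy Pool.Agent.H31C.limit_cardy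
    a b x hx h1 h2

theorem cardy_cont {x : ℝ} (h0 : 0 < x) (h1 : x < 1) : ContinuousAt cardy x := by
  have h2 : IntervalIntegrable (fun t : ℝ => (t*(1-t))^(-(2:ℝ)/3)) volume 0 1 := by
    have := Pool.Agent.H757R2.CardyLimit.int_gd.1
    have e : (fun t : ℝ => (t * (1 - t)) ^ (-(2:ℝ)/3)) = Pool.Agent.H757R2.CardyLimit.gd := by
      funext t
      unfold Pool.Agent.H757R2.CardyLimit.gd
      congr 1
      ring
    rw [e]; exact this
  have h3 : ContinuousOn (fun x => ∫ t in (0:ℝ)..x, (t*(1-t))^(-(2:ℝ)/3)) (Set.uIcc 0 1) :=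
    intervalIntegral.continuousOn_primitive_interval (by
      rw [intervalIntegrable_iff_integrableOn_Icc_of_le zero_le_one] at h2
      rw [Set.uIcc_of_le zero_le_one]; exact h2)
  have h4 : ContinuousAt (fun x => ∫ t in (0:ℝ)..x, (t*(1-t))^(-(2:ℝ)/3)) x := by
    refine h3.continuousAt ?_
    rw [Set.uIcc_of_le zero_le_one]
    exact Icc_mem_nhds h0 h1
  exact h4.div_const _

/-- the width of the strips of the grid -/
noncomputable def gr (c lam : ℝ) (k : ℕ) : ℕ := ⌊c * lam ^ k⌋₊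

theorem gr_tendsto {c lam : ℝ} (hc : 0 < c) (hl : 1 < lam) :
    Tendsto (fun k => (gr c lam k : ℝ) / lam ^ k) atTop (𝓝 c) :=
  (tendsto_nat_floor_mul_div_atTop hc.le).comp (tendsto_pow_atTop_atTop_of_one_lt hl)

variable {ν : Measure unitInterval} [IsProbabilityMeasure ν]

/-- on a geometric grid the quenched probabilities converge almost surely -/
theorem grid_ae (hm : ∫ p, (p : ℝ) ∂ν = 1 / 2) (hρ : rho ν < 1) {a' b' lam : ℝ} (hb' : 0 < b')
    (hl : 1 < lam) :
    ∀ᵐ q ∂env ν, Tendsto (fun k => dd (slitStrip (gr a' lam k) (gr b' lam k)) leftBank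
      (rightWall (gr b' lam k)) q) atTop (𝓝 0) := by
  obtain ⟨C, hC, hvar⟩ := var_main
  have hl0 : 0 < lam := by linarith
  have hρ0 := rho_nonneg ν
  have hρ1 : 0 < 1 - rho ν := by linarith
  set R : ℝ := rho ν / (1 - rho ν) ^ 2 with hR
  have hR0 : 0 ≤ R := by positivity
  set r : ℝ := lam ^ (-(5 / 48 : ℝ)) with hr
  have hr0 : 0 < r := Real.rpow_pos_of_pos hl0 _
  have hr1 : r < 1 := Real.rpow_lt_one_of_one_lt_of_neg hl (by norm_num)
  have hrk : ∀ k : ℕ, r ^ k = (lam ^ k) ^ (-(5 / 48 : ℝ)) := by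
    intro k
    rw [hr, ← Real.rpow_natCast, ← Real.rpow_mul hl0.le, mul_comm, Real.rpow_mul hl0.le,
      Real.rpow_natCast]
  refine ae_tendsto (c := fun k => (C * R * (b' / 4) ^ (-(5 / 48 : ℝ)) + (2 / b') ^ (5 / 48 : ℝ)) * r ^ k)
    ((summable_geometric_of_lt_one hr0.le hr1).mul_left _) ?_
  intro k
  have hlk : 0 < lam ^ k := by positivity
  have t1 : 0 ≤ C * R * (b' / 4) ^ (-(5 / 48 : ℝ)) * r ^ k := by positivity
  have t2 : 0 ≤ (2 / b') ^ (5 / 48 : ℝ) * r ^ k := by positivity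
  rw [add_mul]
  by_cases hk : b' * lam ^ k < 2
  · refine (int_dd_le_one _ _ _).trans ?_
    have h3 : 1 ≤ (2 / b') ^ (5 / 48 : ℝ) * r ^ k := by
      rw [hrk, Real.rpow_neg hlk.le, ← div_eq_mul_inv, le_div_iff₀ (by positivity), one_mul]
      refine Real.rpow_le_rpow hlk.le ?_ (by norm_num)
      rw [le_div_iff₀ hb']
      linarith
    linarith
  · push Not at hk
    set B := gr b' lam k with hB
    have h3 : b' * lam ^ k < B + 1 := Nat.lt_floor_add_one _
    have h4 : 1 ≤ B := by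
      rw [hB]; unfold gr
      exact Nat.le_floor (by push_cast; linarith)
    have h5 := hvar ν hm hρ (slitStrip (gr a' lam k) B) leftBank (rightWall B) ((B + 1) / 2)
      (by omega) (slit_dist (by omega))
    refine le_trans h5 ?_
    have h6 : (b' / 4) * lam ^ k ≤ (((B + 1) / 2 : ℕ) : ℝ) := by
      have h7 : (B : ℝ) ≤ 2 * (((B + 1) / 2 : ℕ) : ℝ) := by
        exact_mod_cast (by omega : B ≤ 2 * ((B + 1) / 2))
      have h8 : (1 : ℝ) ≤ B := by exact_mod_cast h4
      linarith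
    have h7 : (((B + 1) / 2 : ℕ) : ℝ) ^ (-(5 / 48 : ℝ)) ≤ (b' / 4) ^ (-(5 / 48 : ℝ)) * r ^ k := by
      rw [hrk, ← Real.mul_rpow (by positivity) hlk.le]
      exact Real.rpow_le_rpow_of_nonpos (by positivity) h6 (by norm_num)
    have h8 : C * (rho ν / (1 - rho ν) ^ 2) * (((B + 1) / 2 : ℕ) : ℝ) ^ (-(5 / 48 : ℝ)) ≤
        C * R * ((b' / 4) ^ (-(5 / 48 : ℝ)) * r ^ k) :=
      mul_le_mul_of_nonneg_left h7 (by positivity)
    linarith

theorem grid_crit {a' b' lam : ℝ} (ha' : 0 < a') (hb' : 0 < b') (hl : 1 < lam) :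
    Tendsto (fun k => crit.real (SCross (gr a' lam k) (gr b' lam k))) atTop
      (𝓝 (cardy (a' / (a' + b')))) := by
  have hs : 0 < a' + b' := by linarith
  have hp := tendsto_pow_atTop_atTop_of_one_lt hl
  have h1 := gr_tendsto ha' hl
  have h2 := gr_tendsto hb' hl
  have h3 := h1.add h2
  refine crit_slit ⟨by positivity, by rw [div_le_one hs]; linarith⟩ ?_ ?_
  · have h4 := h3.pos_mul_atTop hs hp
    refine h4.congr fun k => ?_
    have : lam ^ k ≠ 0 := by positivity
    field_simp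
  · have h4 := h1.div h3 hs.ne'
    refine h4.congr fun k => ?_
    have : lam ^ k ≠ 0 := by positivity
    simp only [Pi.div_apply]
    rw [← add_div, div_div_div_cancel_right₀ this]

/-- **Quenched Cardy formula.** -/
theorem quenched_cardy (hm : ∫ p, (p : ℝ) ∂ν = 1 / 2) (hρ : rho ν < 1) :
    ∀ᵐ q ∂env ν, ∀ x : ℝ, 0 < x → x < 1 → ∀ a b : ℕ → ℕ,
      Tendsto (fun n => (a n : ℝ) + b n) atTop atTop →
      Tendsto (fun n => (a n : ℝ) / (a n + b n)) atTop (𝓝 x) →
      Tendsto (fun n => (law q).real (Joined (slitStrip (a n) (b n)) leftBank (rightWall (b n))))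
        atTop (𝓝 (cardy x)) := by
  have hgood : ∀ᵐ q ∂env ν, ∀ (m : ℕ) (a' b' : ℚ), 0 < a' → 0 < b' →
      Tendsto (fun k => (law q).real (SCross (gr a' (1 + 1 / ((m : ℝ) + 1)) k)
        (gr b' (1 + 1 / ((m : ℝ) + 1)) k))) atTop (𝓝 (cardy ((a' : ℝ) / (a' + b')))) := by
    rw [ae_all_iff]; intro m
    rw [ae_all_iff]; intro a'
    rw [ae_all_iff]; intro b'
    by_cases ha : 0 < a'
    · by_cases hb : 0 < b'
      · have hlam : (1 : ℝ) < 1 + 1 / ((m : ℝ) + 1) := by
          have : (0 : ℝ) < 1 / ((m : ℝ) + 1) := by positivity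
          linarith
        have ha1 : (0 : ℝ) < a' := by exact_mod_cast ha
        have hb1 : (0 : ℝ) < b' := by exact_mod_cast hb
        filter_upwards [grid_ae (a' := (a' : ℝ)) hm hρ hb1 hlam] with q hq _ _
        have h1 := hq.add (grid_crit ha1 hb1 hlam)
        rw [zero_add] at h1
        refine h1.congr fun k => ?_
        unfold dd
        rw [joined_slit]
        ring
      · exact Eventually.of_forall fun q _ h => absurd h hb
    · exact Eventually.of_forall fun q h => absurd h ha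
  filter_upwards [hgood] with q hq x hx0 hx1 a b h1 h2
  simp only [joined_slit]
  -- mesh
  set s : ℕ → ℝ := fun n => (a n : ℝ) + b n with hs
  have ha : Tendsto (fun n => (a n : ℝ) / s n) atTop (𝓝 x) := h2
  have hb : Tendsto (fun n => (b n : ℝ) / s n) atTop (𝓝 (1 - x)) := by
    have h3 := h2.const_sub 1
    refine h3.congr' ?_
    filter_upwards [h1.eventually_gt_atTop 0] with n hn
    have hn' : (a n : ℝ) + b n ≠ 0 := ne_of_gt hn
    show 1 - (a n : ℝ) / (a n + b n) = (b n : ℝ) / (a n + b n)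
    field_simp
    ring
  -- the scale
  have hscale : ∀ lam : ℝ, 1 < lam → ∃ k : ℕ → ℕ, Tendsto k atTop atTop ∧
      ∀ᶠ n in atTop, lam ^ k n ≤ s n ∧ s n < lam ^ (k n + 1) := by
    intro lam hl
    have h3 : ∀ n, ∃ k : ℕ, 1 ≤ s n → lam ^ k ≤ s n ∧ s n < lam ^ (k + 1) := by
      intro n
      by_cases hn : 1 ≤ s n
      · obtain ⟨k, h4, h5⟩ := exists_nat_pow_near hn hl
        exact ⟨k, fun _ => ⟨h4, h5⟩⟩
      · exact ⟨0, fun h => absurd h hn⟩
    choose k hk using h3
    refine ⟨k, ?_, ?_⟩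
    · rw [tendsto_atTop]
      intro K
      filter_upwards [h1.eventually_ge_atTop 1, h1.eventually_gt_atTop (lam ^ K)] with n h4 h5
      have h6 := (hk n h4).2
      by_contra hcon
      push Not at hcon
      have h7 : lam ^ (k n + 1) ≤ lam ^ K := pow_le_pow_right₀ hl.le (by omega)
      have h8 : s n = (a n : ℝ) + b n := rfl
      linarith
    · filter_upwards [h1.eventually_ge_atTop 1] with n h4
      exact hk n h4
  have hcc := cardy_cont hx0 hx1
  -- continuity in two variables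
  have hc2 : ContinuousAt (fun z : ℝ × ℝ => cardy (z.1 / (z.1 + z.2))) (x, 1 - x) := by
    have h3 : ContinuousAt (fun z : ℝ × ℝ => z.1 / (z.1 + z.2)) (x, 1 - x) := by
      refine ContinuousAt.div continuousAt_fst (continuousAt_fst.add continuousAt_snd) ?_
      simp
    have h4 : (fun z : ℝ × ℝ => z.1 / (z.1 + z.2)) (x, 1 - x) = x := by simp
    have h5 : ContinuousAt cardy ((fun z : ℝ × ℝ => z.1 / (z.1 + z.2)) (x, 1 - x)) := by
      rw [h4]; exact hcc
    exact ContinuousAt.comp (f := fun z : ℝ × ℝ => z.1 / (z.1 + z.2)) h5 h3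
  have hval : (fun z : ℝ × ℝ => cardy (z.1 / (z.1 + z.2))) (x, 1 - x) = cardy x := by simp
  -- neighbourhoods
  have hnb : ∀ U : Set ℝ, U ∈ 𝓝 (cardy x) → ∃ η : ℝ, 0 < η ∧ ∀ s t : ℝ, |s - x| < η →
      |t - (1 - x)| < η → cardy (s / (s + t)) ∈ U := by
    intro U hU
    have h3 : U ∈ 𝓝 ((fun z : ℝ × ℝ => cardy (z.1 / (z.1 + z.2))) (x, 1 - x)) := by
      rw [hval]; exact hU
    have h4 := hc2 h3
    rw [mem_map, Metric.mem_nhds_iff] at h4
    obtain ⟨η, hη, h5⟩ := h4
    refine ⟨η, hη, fun s t h6 h7 => ?_⟩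
    have h8 : ((s, t) : ℝ × ℝ) ∈ Metric.ball (x, 1 - x) η := by
      rw [Metric.mem_ball, Prod.dist_eq, max_lt_iff, Real.dist_eq, Real.dist_eq]
      exact ⟨h6, h7⟩
    exact h5 h8
  -- choice of the grid
  have hgrid : ∀ y η : ℝ, 0 < y → 0 < η → ∃ m : ℕ, y * (1 + 1 / ((m : ℝ) + 1)) < y + η := by
    intro y η hy hη
    obtain ⟨m, hm⟩ := exists_nat_one_div_lt (div_pos hη hy)
    refine ⟨m, ?_⟩
    have : y * (1 / ((m : ℝ) + 1)) < η := by
      rw [lt_div_iff₀ hy] at hm
      linarith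
    linarith
  rw [tendsto_order]
  constructor
  · intro c hc
    obtain ⟨η, hη, hU⟩ := hnb (Set.Ioi c) (Ioi_mem_nhds hc)
    obtain ⟨m, hmm⟩ := hgrid (1 - x) η (by linarith) hη
    set lam : ℝ := 1 + 1 / ((m : ℝ) + 1) with hlam
    have hl : 1 < lam := by
      have : (0 : ℝ) < 1 / ((m : ℝ) + 1) := by positivity
      rw [hlam]; linarith
    have hl0 : 0 < lam := by linarith
    obtain ⟨a', ha1, ha2⟩ := exists_rat_btwn (show max 0 (x - η) < x from max_lt hx0 (by linarith))
    obtain ⟨b', hb1, hb2⟩ := exists_rat_btwn hmm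
    have ha0 : (0 : ℝ) < a' := (le_max_left _ _).trans_lt ha1
    have ha3 : x - η < a' := (le_max_right _ _).trans_lt ha1
    have hb0 : (0 : ℝ) < b' := lt_trans (mul_pos (by linarith) hl0) hb1
    have hb3 : 1 - x < b' := by
      have : (1 - x) * 1 ≤ (1 - x) * lam := mul_le_mul_of_nonneg_left hl.le (by linarith)
      linarith
    have hcU : c < cardy ((a' : ℝ) / (a' + b')) := hU _ _ (by rw [abs_lt]; constructor <;> linarith)
      (by rw [abs_lt]; constructor <;> linarith)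
    obtain ⟨k, hk1, hk2⟩ := hscale lam hl
    have h5 := (hq m a' b' (by exact_mod_cast ha0) (by exact_mod_cast hb0)).comp hk1
    have hbl : 1 - x < b' / lam := by rw [lt_div_iff₀ hl0]; exact hb1
    filter_upwards [h5.eventually_const_lt hcU, hk2, ha.eventually_const_lt ha2,
      hb.eventually_lt_const hbl, h1.eventually_gt_atTop 0] with n g1 g2 g3 g4 g5
    have hs0 : 0 < s n := g5
    refine g1.trans_le ?_
    rw [lt_div_iff₀ hs0] at g3
    rw [div_lt_iff₀ hs0] at g4
    have e1 : gr a' lam (k n) ≤ a n := by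
      have h6 : (gr a' lam (k n) : ℝ) ≤ a' * lam ^ k n := Nat.floor_le (by positivity)
      have h7 : (a' : ℝ) * lam ^ k n ≤ a' * s n := mul_le_mul_of_nonneg_left g2.1 ha0.le
      exact_mod_cast h6.trans (h7.trans g3.le)
    have e2 : b n ≤ gr b' lam (k n) := by
      refine Nat.le_floor ?_
      have h6 : b' / lam * s n ≤ b' / lam * lam ^ (k n + 1) :=
        mul_le_mul_of_nonneg_left g2.2.le (by positivity)
      have h7 : b' / lam * lam ^ (k n + 1) = b' * lam ^ k n := by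
        rw [pow_succ]; field_simp
      linarith
    show (law q).real (SCross (gr a' lam (k n)) (gr b' lam (k n))) ≤ _
    exact measureReal_mono ((scross_mono_left e1 _).trans (scross_anti_right _ e2))
  · intro c hc
    obtain ⟨η, hη, hU⟩ := hnb (Set.Iio c) (Iio_mem_nhds hc)
    obtain ⟨m, hmm⟩ := hgrid x η hx0 hη
    set lam : ℝ := 1 + 1 / ((m : ℝ) + 1) with hlam
    have hl : 1 < lam := by
      have : (0 : ℝ) < 1 / ((m : ℝ) + 1) := by positivity
      rw [hlam]; linarith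
    have hl0 : 0 < lam := by linarith
    obtain ⟨b', hb1, hb2⟩ := exists_rat_btwn
      (show max 0 (1 - x - η) < 1 - x from max_lt (by linarith) (by linarith))
    obtain ⟨a', ha1, ha2⟩ := exists_rat_btwn hmm
    have hb0 : (0 : ℝ) < b' := (le_max_left _ _).trans_lt hb1
    have hb3 : 1 - x - η < b' := (le_max_right _ _).trans_lt hb1
    have ha0 : (0 : ℝ) < a' := lt_trans (mul_pos hx0 hl0) ha1
    have ha3 : x < a' := by
      have : x * 1 ≤ x * lam := mul_le_mul_of_nonneg_left hl.le hx0.le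
      linarith
    have hcU : cardy ((a' : ℝ) / (a' + b')) < c := hU _ _ (by rw [abs_lt]; constructor <;> linarith)
      (by rw [abs_lt]; constructor <;> linarith)
    obtain ⟨k, hk1, hk2⟩ := hscale lam hl
    have h5 := (hq m a' b' (by exact_mod_cast ha0) (by exact_mod_cast hb0)).comp hk1
    have hal : x < a' / lam := by rw [lt_div_iff₀ hl0]; exact ha1
    filter_upwards [h5.eventually_lt_const hcU, hk2, hb.eventually_const_lt hb2,
      ha.eventually_lt_const hal, h1.eventually_gt_atTop 0] with n g1 g2 g3 g4 g5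
    have hs0 : 0 < s n := g5
    refine lt_of_le_of_lt ?_ g1
    rw [lt_div_iff₀ hs0] at g3
    rw [div_lt_iff₀ hs0] at g4
    have e1 : gr b' lam (k n) ≤ b n := by
      have h6 : (gr b' lam (k n) : ℝ) ≤ b' * lam ^ k n := Nat.floor_le (by positivity)
      have h7 : (b' : ℝ) * lam ^ k n ≤ b' * s n := mul_le_mul_of_nonneg_left g2.1 hb0.le
      exact_mod_cast h6.trans (h7.trans g3.le)
    have e2 : a n ≤ gr a' lam (k n) := by
      refine Nat.le_floor ?_
      have h6 : a' / lam * s n ≤ a' / lam * lam ^ (k n + 1) :=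
        mul_le_mul_of_nonneg_left g2.2.le (by positivity)
      have h7 : a' / lam * lam ^ (k n + 1) = a' * lam ^ k n := by
        rw [pow_succ]; field_simp
      linarith
    show _ ≤ (law q).real (SCross (gr a' lam (k n)) (gr b' lam (k n)))
    exact measureReal_mono ((scross_mono_left e2 _).trans (scross_anti_right _ e1))

end Pool.Agent.X136.QC
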