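import Mathlib

set_option autoImplicit false

/-!
# Walsh expansion and stopping sets (the inequality of Schramm and Steif)
-/

namespace Pool.Agent.X136.QC

open Finset

variable {ι : Type*} [Fintype ι] [DecidableEq ι]

/-- sign -/
def sg (b : Bool) : ℝ := if b = true then 1 else -1

theorem sg_mul_self (b : Bool) : sg b * sg b = 1 := by cases b <;> simp [sg]

/-- Walsh functions -/
def chi (S : Finset ι) (ω : ι → Bool) : ℝ := ∏ i ∈ S, sg (ω i)

theorem chi_empty (ω : ι → Bool) : chi ∅ ω = 1 := by simp [chi]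

theorem chi_orth (S T : Finset ι) :
    ∑ ω : ι → Bool, chi S ω * chi T ω = if S = T then (2 : ℝ) ^ Fintype.card ι else 0 := by
  have h1 : ∀ ω : ι → Bool, chi S ω * chi T ω =
      ∏ i, ((if i ∈ S then sg (ω i) else 1) * (if i ∈ T then sg (ω i) else 1)) := by
    intro ω
    rw [prod_mul_distrib]
    unfold chi
    congr 1 <;> rw [prod_ite_mem, univ_inter]
  have h2 : ∑ ω : ι → Bool, ∏ i, ((if i ∈ S then sg (ω i) else 1) *
      (if i ∈ T then sg (ω i) else 1)) =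
      ∏ i, ∑ b : Bool, ((if i ∈ S then sg b else 1) * (if i ∈ T then sg b else 1)) := by
    rw [prod_univ_sum, Fintype.piFinset_univ]
  rw [sum_congr rfl fun ω _ => h1 ω, h2]
  have h3 : ∀ i : ι, ∑ b : Bool, ((if i ∈ S then sg b else 1) * (if i ∈ T then sg b else 1)) =
      if (i ∈ S ↔ i ∈ T) then (2 : ℝ) else 0 := by
    intro i
    rw [Fintype.sum_bool]
    by_cases h1 : i ∈ S <;> by_cases h2 : i ∈ T <;> simp [h1, h2, sg] <;> norm_num
  rw [prod_congr rfl fun i _ => h3 i]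
  split_ifs with h
  · subst h
    simp
  · have : ∃ i, ¬ (i ∈ S ↔ i ∈ T) := by
      by_contra hcon
      push Not at hcon
      exact h (Finset.ext hcon)
    obtain ⟨i, hi⟩ := this
    exact prod_eq_zero (mem_univ i) (if_neg hi)

theorem sum_comb_mul_chi (L : Finset (Finset ι)) (a : Finset ι → ℝ) (S : Finset ι) :
    ∑ ω : ι → Bool, (∑ T ∈ L, a T * chi T ω) * chi S ω =
      if S ∈ L then (2 : ℝ) ^ Fintype.card ι * a S else 0 := by
  have h1 : ∀ ω : ι → Bool, (∑ T ∈ L, a T * chi T ω) * chi S ω =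
      ∑ T ∈ L, a T * (chi T ω * chi S ω) := by
    intro ω
    rw [sum_mul]
    exact sum_congr rfl fun T _ => by ring
  rw [sum_congr rfl fun ω _ => h1 ω, sum_comm]
  have h2 : ∀ T ∈ L, ∑ ω : ι → Bool, a T * (chi T ω * chi S ω) =
      if T = S then a T * (2 : ℝ) ^ Fintype.card ι else 0 := by
    intro T _
    rw [← mul_sum, chi_orth]
    split_ifs <;> simp
  rw [sum_congr rfl h2, sum_ite_eq' L S fun T => a T * (2 : ℝ) ^ Fintype.card ι]
  split_ifs <;> ring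

theorem sum_comb_sq (L : Finset (Finset ι)) (a : Finset ι → ℝ) :
    ∑ ω : ι → Bool, (∑ T ∈ L, a T * chi T ω) ^ 2 =
      (2 : ℝ) ^ Fintype.card ι * ∑ T ∈ L, a T ^ 2 := by
  have h1 : ∀ ω : ι → Bool, (∑ T ∈ L, a T * chi T ω) ^ 2 =
      ∑ S ∈ L, a S * ((∑ T ∈ L, a T * chi T ω) * chi S ω) := by
    intro ω
    rw [sq, mul_sum]
    exact sum_congr rfl fun S _ => by ring
  rw [sum_congr rfl fun ω _ => h1 ω, sum_comm, mul_sum]
  refine sum_congr rfl fun S hS => ?_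
  rw [← mul_sum, sum_comb_mul_chi, if_pos hS]
  ring

/-- Bessel's inequality -/
theorem bessel (L : Finset (Finset ι)) (h : (ι → Bool) → ℝ) :
    ∑ T ∈ L, (∑ ω, h ω * chi T ω) ^ 2 ≤ (2 : ℝ) ^ Fintype.card ι * ∑ ω, h ω ^ 2 := by
  set N : ℝ := (2 : ℝ) ^ Fintype.card ι with hN
  have hN0 : 0 < N := by positivity
  set c : Finset ι → ℝ := fun T => ∑ ω, h ω * chi T ω with hc
  have h0 : 0 ≤ ∑ ω : ι → Bool, (N * h ω - ∑ T ∈ L, c T * chi T ω) ^ 2 :=
    sum_nonneg fun _ _ => sq_nonneg _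
  have h1 : ∑ ω : ι → Bool, (N * h ω - ∑ T ∈ L, c T * chi T ω) ^ 2 =
      N ^ 2 * ∑ ω, h ω ^ 2 - 2 * N * ∑ ω : ι → Bool, h ω * ∑ T ∈ L, c T * chi T ω +
      ∑ ω : ι → Bool, (∑ T ∈ L, c T * chi T ω) ^ 2 := by
    rw [mul_sum, mul_sum, ← sum_sub_distrib, ← sum_add_distrib]
    exact sum_congr rfl fun ω _ => by ring
  have h2 : ∑ ω : ι → Bool, h ω * ∑ T ∈ L, c T * chi T ω = ∑ T ∈ L, c T ^ 2 := by
    have : ∀ ω : ι → Bool, h ω * ∑ T ∈ L, c T * chi T ω = ∑ T ∈ L, c T * (h ω * chi T ω) := by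
      intro ω
      rw [mul_sum]
      exact sum_congr rfl fun T _ => by ring
    rw [sum_congr rfl fun ω _ => this ω, sum_comm]
    refine sum_congr rfl fun T _ => ?_
    rw [← mul_sum, sq]
  rw [h1, h2, sum_comb_sq] at h0
  have h3 : N * (∑ T ∈ L, c T ^ 2) ≤ N * (N * ∑ ω, h ω ^ 2) := by nlinarith
  exact le_of_mul_le_mul_left h3 hN0

/-- `ω` on `J`, `η` off `J` -/
def mix (J : Finset ι) (ω η : ι → Bool) : ι → Bool := fun i => if i ∈ J then ω i else η i

theorem chi_mix (J S : Finset ι) (ω η : ι → Bool) :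
    chi S (mix J ω η) = chi (S ∩ J) ω * chi (S \ J) η := by
  unfold chi mix
  rw [← prod_inter_mul_prod_diff S J]
  congr 1
  · refine prod_congr rfl fun i hi => ?_
    rw [if_pos (mem_inter.1 hi).2]
  · refine prod_congr rfl fun i hi => ?_
    rw [if_neg (mem_sdiff.1 hi).2]

/-- a stopping set -/
def Stop (J : (ι → Bool) → Finset ι) : Prop :=
  ∀ ω ω' : ι → Bool, (∀ i ∈ J ω, ω i = ω' i) → J ω' = J ω

/-- the change of variables -/
def swp (J : (ι → Bool) → Finset ι) (z : (ι → Bool) × (ι → Bool)) : (ι → Bool) × (ι → Bool) :=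
  (mix (J z.1) z.1 z.2, mix (J z.1) z.2 z.1)

theorem J_mix {J : (ι → Bool) → Finset ι} (hJ : Stop J) (ω η : ι → Bool) :
    J (mix (J ω) ω η) = J ω :=
  hJ ω _ fun i hi => by unfold mix; rw [if_pos hi]

theorem swp_swp {J : (ι → Bool) → Finset ι} (hJ : Stop J) : Function.Involutive (swp J) := by
  rintro ⟨ω, η⟩
  unfold swp
  simp only
  rw [J_mix hJ]
  refine Prod.ext ?_ ?_
  · funext i
    simp only [mix]
    split_ifs <;> rfl
  · funext i
    simp only [mix]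
    split_ifs <;> rfl

theorem sum_swp {J : (ι → Bool) → Finset ι} (hJ : Stop J)
    (F : (ι → Bool) × (ι → Bool) → ℝ) : ∑ z, F (swp J z) = ∑ z, F z :=
  Equiv.sum_comp (swp_swp hJ).toPerm F

/-- the weight of a level -/
noncomputable def Wt (f : (ι → Bool) → ℝ) (k : ℕ) : ℝ :=
  ∑ T ∈ powersetCard k (univ : Finset ι), (∑ ω, f ω * chi T ω) ^ 2

/-- the projection to a level (times `2 ^ n`) -/
noncomputable def gg (f : (ι → Bool) → ℝ) (k : ℕ) (ω : ι → Bool) : ℝ :=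
  ∑ T ∈ powersetCard k (univ : Finset ι), (∑ ω, f ω * chi T ω) * chi T ω

theorem sum_f_gg (f : (ι → Bool) → ℝ) (k : ℕ) : ∑ ω, f ω * gg f k ω = Wt f k := by
  unfold gg Wt
  have : ∀ ω : ι → Bool, f ω * ∑ T ∈ powersetCard k (univ : Finset ι),
      (∑ ω, f ω * chi T ω) * chi T ω = ∑ T ∈ powersetCard k (univ : Finset ι),
      (∑ ω, f ω * chi T ω) * (f ω * chi T ω) := by
    intro ω
    rw [mul_sum]
    exact sum_congr rfl fun T _ => by ring
  rw [sum_congr rfl fun ω _ => this ω, sum_comm]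
  refine sum_congr rfl fun T _ => ?_
  rw [← mul_sum, sq]

theorem sum_gg_sq (f : (ι → Bool) → ℝ) (k : ℕ) :
    ∑ ω, gg f k ω ^ 2 = (2 : ℝ) ^ Fintype.card ι * Wt f k := by
  unfold gg Wt
  exact sum_comb_sq _ _

theorem sum_prod_const (F : (ι → Bool) → ℝ) :
    ∑ z : (ι → Bool) × (ι → Bool), F z.1 = (2 : ℝ) ^ Fintype.card ι * ∑ ω, F ω := by
  rw [Fintype.sum_prod_type, mul_sum]
  refine sum_congr rfl fun ω _ => ?_
  simp only
  rw [sum_const, card_univ, Fintype.card_fun, Fintype.card_bool, nsmul_eq_mul]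
  push_cast
  rfl

/-- the conditional expectation given the revealed bits (times `2 ^ n`) -/
noncomputable def PP (J : (ι → Bool) → Finset ι) (g : (ι → Bool) → ℝ) (ω : ι → Bool) : ℝ :=
  ∑ η, g (mix (J ω) ω η)

theorem sum_f_PP {J : (ι → Bool) → Finset ι} (hJ : Stop J) {f : (ι → Bool) → ℝ}
    (hf : ∀ ω ω' : ι → Bool, (∀ i ∈ J ω, ω i = ω' i) → f ω' = f ω) (g : (ι → Bool) → ℝ) :
    ∑ ω, f ω * PP J g ω = (2 : ℝ) ^ Fintype.card ι * ∑ ω, f ω * g ω := by
  rw [← sum_prod_const]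
  have h1 : ∑ ω, f ω * PP J g ω = ∑ z : (ι → Bool) × (ι → Bool), f z.1 * g (mix (J z.1) z.1 z.2) := by
    rw [Fintype.sum_prod_type]
    refine sum_congr rfl fun ω _ => ?_
    unfold PP
    rw [mul_sum]
  rw [h1, ← sum_swp hJ]
  refine sum_congr rfl fun z _ => ?_
  have h2 : f (swp J z).1 = f z.1 := hf _ _ fun i hi => by
    show z.1 i = mix (J z.1) z.1 z.2 i
    unfold mix
    rw [if_pos hi]
  have h3 : mix (J (swp J z).1) (swp J z).1 (swp J z).2 = z.1 := congrArg Prod.fst (swp_swp hJ z)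
  rw [h2, h3]

theorem sum_mix_sq {J : (ι → Bool) → Finset ι} (hJ : Stop J) (g : (ι → Bool) → ℝ) :
    ∑ ω, ∑ η, g (mix (J ω) ω η) ^ 2 = (2 : ℝ) ^ Fintype.card ι * ∑ ω, g ω ^ 2 := by
  rw [← sum_prod_const, ← Fintype.sum_prod_type' (f := fun ω η => g (mix (J ω) ω η) ^ 2),
    ← sum_swp hJ]
  refine sum_congr rfl fun z _ => ?_
  have h3 : mix (J (swp J z).1) (swp J z).1 (swp J z).2 = z.1 := congrArg Prod.fst (swp_swp hJ z)
  rw [h3]

/-- the coefficients of the projection, given the revealed bits -/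
theorem coef_mix (f : (ι → Bool) → ℝ) (k : ℕ) (J : Finset ι) (ω : ι → Bool) {T : Finset ι}
    (hT : T ∈ powersetCard k (univ : Finset ι)) (hTJ : Disjoint T J) :
    ∑ η, gg f k (mix J ω η) * chi T η =
      (2 : ℝ) ^ Fintype.card ι * ∑ ω, f ω * chi T ω := by
  unfold gg
  have h1 : ∀ η : ι → Bool, (∑ S ∈ powersetCard k (univ : Finset ι),
      (∑ ω, f ω * chi S ω) * chi S (mix J ω η)) * chi T η =
      ∑ S ∈ powersetCard k (univ : Finset ι),
        ((∑ ω, f ω * chi S ω) * chi (S ∩ J) ω) * (chi (S \ J) η * chi T η) := by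
    intro η
    rw [sum_mul]
    refine sum_congr rfl fun S _ => ?_
    rw [chi_mix]; ring
  rw [sum_congr rfl fun η _ => h1 η, sum_comm]
  have h2 : ∀ S ∈ powersetCard k (univ : Finset ι),
      ∑ η, ((∑ ω, f ω * chi S ω) * chi (S ∩ J) ω) * (chi (S \ J) η * chi T η) =
      if S = T then (2 : ℝ) ^ Fintype.card ι * ∑ ω, f ω * chi S ω else 0 := by
    intro S hS
    rw [← mul_sum, chi_orth]
    by_cases h : S = T
    · subst h
      have e1 : S \ J = S := sdiff_eq_self_of_disjoint hTJ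
      have e2 : S ∩ J = ∅ := disjoint_iff_inter_eq_empty.1 hTJ
      rw [if_pos e1, if_pos rfl, e2, chi_empty]
      ring
    · rw [if_neg h, if_neg, mul_zero]
      intro h3
      apply h
      have h4 : T ⊆ S := by rw [← h3]; exact sdiff_subset
      refine (eq_of_subset_of_card_le h4 ?_).symm
      rw [(mem_powersetCard.1 hS).2, (mem_powersetCard.1 hT).2]
  rw [sum_congr rfl h2, sum_ite_eq' _ T, if_pos hT]

theorem PP_sq_le {J : (ι → Bool) → Finset ι} (hJ : Stop J) (f : (ι → Bool) → ℝ) {k : ℕ}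
    (hk : 1 ≤ k) :
    ∑ ω, PP J (gg f k) ω ^ 2 ≤ ((2 : ℝ) ^ Fintype.card ι) ^ 2 *
      ∑ T ∈ powersetCard k (univ : Finset ι), (∑ ω, f ω * chi T ω) ^ 2 *
        ((univ.filter fun ω => ¬ Disjoint T (J ω)).card : ℝ) := by
  set N : ℝ := (2 : ℝ) ^ Fintype.card ι with hN
  set L := powersetCard k (univ : Finset ι) with hL
  have h1 : ∀ ω : ι → Bool, PP J (gg f k) ω ^ 2 +
      ∑ T ∈ L.filter (fun T => Disjoint T (J ω)), (N * ∑ ω, f ω * chi T ω) ^ 2 ≤
      N * ∑ η, gg f k (mix (J ω) ω η) ^ 2 := by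
    intro ω
    have h2 := bessel (insert ∅ (L.filter fun T => Disjoint T (J ω)))
      (fun η => gg f k (mix (J ω) ω η))
    rw [sum_insert] at h2
    · refine le_trans (le_of_eq ?_) h2
      congr 1
      · unfold PP
        congr 1
        exact sum_congr rfl fun η _ => by rw [chi_empty, mul_one]
      · refine sum_congr rfl fun T hT => ?_
        rw [mem_filter] at hT
        rw [coef_mix f k (J ω) ω hT.1 hT.2]
    · rw [mem_filter, hL, mem_powersetCard]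
      rintro ⟨⟨-, h3⟩, -⟩
      rw [card_empty] at h3
      omega
  have h2 := sum_le_sum fun (ω : ι → Bool) (_ : ω ∈ univ) => h1 ω
  rw [sum_add_distrib, ← mul_sum, sum_mix_sq hJ, sum_gg_sq] at h2
  have h3 : ∑ ω : ι → Bool, ∑ T ∈ L.filter (fun T => Disjoint T (J ω)),
      (N * ∑ ω, f ω * chi T ω) ^ 2 = N ^ 2 * ∑ T ∈ L, (∑ ω, f ω * chi T ω) ^ 2 *
        (N - ((univ.filter fun ω => ¬ Disjoint T (J ω)).card : ℝ)) := by
    have h4 : ∀ ω : ι → Bool, ∑ T ∈ L.filter (fun T => Disjoint T (J ω)),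
      (N * ∑ ω, f ω * chi T ω) ^ 2 = ∑ T ∈ L, if Disjoint T (J ω) then
        (N * ∑ ω, f ω * chi T ω) ^ 2 else 0 := fun ω => sum_filter _ _
    rw [sum_congr rfl fun ω _ => h4 ω, sum_comm, mul_sum]
    refine sum_congr rfl fun T _ => ?_
    rw [← sum_filter, sum_const, nsmul_eq_mul]
    have h5 := card_filter_add_card_filter_not (s := (univ : Finset (ι → Bool)))
      (fun ω => Disjoint T (J ω))
    rw [card_univ, Fintype.card_fun, Fintype.card_bool] at h5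
    have h6 : ((univ.filter fun ω => Disjoint T (J ω)).card : ℝ) +
        ((univ.filter fun ω => ¬ Disjoint T (J ω)).card : ℝ) = N := by
      rw [hN]; exact_mod_cast h5
    rw [← h6]
    ring
  rw [h3] at h2
  have h4 : ∑ T ∈ L, (∑ ω, f ω * chi T ω) ^ 2 *
        (N - ((univ.filter fun ω => ¬ Disjoint T (J ω)).card : ℝ)) =
      N * Wt f k - ∑ T ∈ L, (∑ ω, f ω * chi T ω) ^ 2 *
        ((univ.filter fun ω => ¬ Disjoint T (J ω)).card : ℝ) := by
    unfold Wt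
    rw [mul_sum, ← sum_sub_distrib]
    exact sum_congr rfl fun T _ => by ring
  rw [h4] at h2
  linarith

/-- **The inequality of Schramm and Steif.** -/
theorem level_le {f : (ι → Bool) → ℝ} (hf1 : ∀ ω, |f ω| ≤ 1) {Λ : Type*} (X : Finset Λ)
    (hX : X.Nonempty) {J : Λ → (ι → Bool) → Finset ι} (hJ : ∀ x ∈ X, Stop (J x))
    (hf : ∀ x ∈ X, ∀ ω ω' : ι → Bool, (∀ i ∈ J x ω, ω i = ω' i) → f ω' = f ω) {δ : ℝ}
    (hδ0 : 0 ≤ δ) (hδ : ∀ i, ∑ x ∈ X, ((univ.filter fun ω => i ∈ J x ω).card : ℝ) ≤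
      δ * X.card * (2 : ℝ) ^ Fintype.card ι) {k : ℕ} (hk : 1 ≤ k) :
    Wt f k ≤ k * δ * ((2 : ℝ) ^ Fintype.card ι) ^ 2 := by
  set N : ℝ := (2 : ℝ) ^ Fintype.card ι with hN
  have hN0 : 0 < N := by positivity
  have hX0 : 0 < (X.card : ℝ) := by exact_mod_cast hX.card_pos
  have hW0 : 0 ≤ Wt f k := sum_nonneg fun _ _ => sq_nonneg _
  have hff : ∑ ω, f ω ^ 2 ≤ N := by
    calc ∑ ω, f ω ^ 2 ≤ ∑ ω : ι → Bool, (1 : ℝ) :=
          sum_le_sum fun ω _ => by
            have := hf1 ω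
            rw [abs_le] at this
            nlinarith
      _ = N := by
        rw [sum_const, card_univ, Fintype.card_fun, Fintype.card_bool, nsmul_eq_mul, mul_one, hN]
        push_cast
        rfl
  have h1 : ∀ x ∈ X, Wt f k ^ 2 ≤ N * ∑ T ∈ powersetCard k (univ : Finset ι),
      (∑ ω, f ω * chi T ω) ^ 2 * ((univ.filter fun ω => ¬ Disjoint T (J x ω)).card : ℝ) := by
    intro x hx
    have h2 := sum_f_PP (hJ x hx) (hf x hx) (gg f k)
    rw [sum_f_gg] at h2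
    have h3 := sum_mul_sq_le_sq_mul_sq univ f (PP (J x) (gg f k))
    rw [h2] at h3
    have h4 := PP_sq_le (hJ x hx) f hk
    have h5 : (N * Wt f k) ^ 2 ≤ N * (N ^ 2 * ∑ T ∈ powersetCard k (univ : Finset ι),
      (∑ ω, f ω * chi T ω) ^ 2 * ((univ.filter fun ω => ¬ Disjoint T (J x ω)).card : ℝ)) :=
      h3.trans (mul_le_mul hff h4 (sum_nonneg fun _ _ => sq_nonneg _) hN0.le)
    have h6 : N ^ 2 * Wt f k ^ 2 ≤ N ^ 2 * (N * ∑ T ∈ powersetCard k (univ : Finset ι),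
      (∑ ω, f ω * chi T ω) ^ 2 * ((univ.filter fun ω => ¬ Disjoint T (J x ω)).card : ℝ)) := by
      calc N ^ 2 * Wt f k ^ 2 = (N * Wt f k) ^ 2 := by ring
        _ ≤ _ := h5
        _ = _ := by ring
    exact le_of_mul_le_mul_left h6 (by positivity)
  have h2 : (X.card : ℝ) * Wt f k ^ 2 ≤ ∑ x ∈ X, N * ∑ T ∈ powersetCard k (univ : Finset ι),
      (∑ ω, f ω * chi T ω) ^ 2 * ((univ.filter fun ω => ¬ Disjoint T (J x ω)).card : ℝ) := by
    rw [← nsmul_eq_mul]
    exact card_nsmul_le_sum _ _ _ h1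
  have h3 : ∑ x ∈ X, N * ∑ T ∈ powersetCard k (univ : Finset ι),
      (∑ ω, f ω * chi T ω) ^ 2 * ((univ.filter fun ω => ¬ Disjoint T (J x ω)).card : ℝ) =
      N * ∑ T ∈ powersetCard k (univ : Finset ι), (∑ ω, f ω * chi T ω) ^ 2 *
        ∑ x ∈ X, ((univ.filter fun ω => ¬ Disjoint T (J x ω)).card : ℝ) := by
    rw [← mul_sum, sum_comm]
    congr 1
    refine sum_congr rfl fun T _ => ?_
    rw [mul_sum]
  have h4 : ∀ T ∈ powersetCard k (univ : Finset ι),
      ∑ x ∈ X, ((univ.filter fun ω => ¬ Disjoint T (J x ω)).card : ℝ) ≤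
      k * (δ * X.card * N) := by
    intro T hT
    have h5 : ∀ x ∈ X, ((univ.filter fun ω => ¬ Disjoint T (J x ω)).card : ℝ) ≤
        ∑ i ∈ T, ((univ.filter fun ω => i ∈ J x ω).card : ℝ) := by
      intro x _
      have h6 : (univ.filter fun ω => ¬ Disjoint T (J x ω)) ⊆
          T.biUnion fun i => univ.filter fun ω => i ∈ J x ω := by
        intro ω hω
        rw [mem_filter, not_disjoint_iff] at hω
        obtain ⟨-, i, hi, hi2⟩ := hω
        exact mem_biUnion.2 ⟨i, hi, mem_filter.2 ⟨mem_univ _, hi2⟩⟩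
      exact_mod_cast (card_le_card h6).trans card_biUnion_le
    refine (sum_le_sum h5).trans ?_
    rw [sum_comm]
    refine (sum_le_sum fun i _ => hδ i).trans ?_
    rw [sum_const, (mem_powersetCard.1 hT).2, nsmul_eq_mul]
  have h5 : (X.card : ℝ) * Wt f k ^ 2 ≤ N * (Wt f k * (k * (δ * X.card * N))) := by
    refine (h2.trans (le_of_eq h3)).trans ?_
    refine mul_le_mul_of_nonneg_left ?_ hN0.le
    unfold Wt
    rw [sum_mul]
    exact sum_le_sum fun T hT => mul_le_mul_of_nonneg_left (h4 T hT) (sq_nonneg _)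
  rcases hW0.eq_or_lt with h0 | h0
  · rw [← h0]
    positivity
  · have h6 : (X.card * Wt f k) * Wt f k ≤ (X.card * Wt f k) * (k * δ * N ^ 2) := by
      calc (X.card * Wt f k) * Wt f k = X.card * Wt f k ^ 2 := by ring
        _ ≤ _ := h5
        _ = _ := by ring
    exact le_of_mul_le_mul_left h6 (by positivity)

theorem stab_eq (f : (ι → Bool) → ℝ) (ρ : ℝ) :
    ∑ x : ι → Bool, ∑ y : ι → Bool, f x * f y * ∏ i, (1 + ρ * (sg (x i) * sg (y i))) =
      ∑ k ∈ range (Fintype.card ι + 1), ρ ^ k * Wt f k := by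
  have h1 : ∀ x y : ι → Bool, ∏ i, (1 + ρ * (sg (x i) * sg (y i))) =
      ∑ S ∈ (univ : Finset ι).powerset, ρ ^ S.card * (chi S x * chi S y) := by
    intro x y
    rw [prod_one_add]
    refine sum_congr rfl fun S _ => ?_
    rw [prod_mul_distrib, prod_const, prod_mul_distrib]
    rfl
  have h2 : ∀ x y : ι → Bool, f x * f y * ∏ i, (1 + ρ * (sg (x i) * sg (y i))) =
      ∑ S ∈ (univ : Finset ι).powerset, ρ ^ S.card * ((f x * chi S x) * (f y * chi S y)) := by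
    intro x y
    rw [h1, mul_sum]
    exact sum_congr rfl fun S _ => by ring
  have h3 : ∑ x : ι → Bool, ∑ y : ι → Bool, f x * f y * ∏ i, (1 + ρ * (sg (x i) * sg (y i))) =
      ∑ S ∈ (univ : Finset ι).powerset, ρ ^ S.card * (∑ ω, f ω * chi S ω) ^ 2 := by
    calc _ = ∑ x : ι → Bool, ∑ y : ι → Bool, ∑ S ∈ (univ : Finset ι).powerset,
          ρ ^ S.card * ((f x * chi S x) * (f y * chi S y)) :=
          sum_congr rfl fun x _ => sum_congr rfl fun y _ => h2 x y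
      _ = ∑ x : ι → Bool, ∑ S ∈ (univ : Finset ι).powerset, ∑ y : ι → Bool,
          ρ ^ S.card * ((f x * chi S x) * (f y * chi S y)) :=
          sum_congr rfl fun x _ => sum_comm
      _ = ∑ S ∈ (univ : Finset ι).powerset, ∑ x : ι → Bool, ∑ y : ι → Bool,
          ρ ^ S.card * ((f x * chi S x) * (f y * chi S y)) := sum_comm
      _ = _ := by
          refine sum_congr rfl fun S _ => ?_
          rw [sq, sum_mul_sum, mul_sum]
          refine sum_congr rfl fun x _ => ?_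
          rw [mul_sum]
  rw [h3, sum_powerset, card_univ]
  refine sum_congr rfl fun k _ => ?_
  unfold Wt
  rw [mul_sum]
  refine sum_congr rfl fun S hS => ?_
  rw [(mem_powersetCard.1 hS).2]

theorem Wt_zero (f : (ι → Bool) → ℝ) : Wt f 0 = (∑ ω, f ω) ^ 2 := by
  unfold Wt
  rw [powersetCard_zero, sum_singleton]
  congr 1
  exact sum_congr rfl fun ω _ => by rw [chi_empty, mul_one]

/-- **Noise sensitivity from small revealment.** -/
theorem stab_le {f : (ι → Bool) → ℝ} (hf1 : ∀ ω, |f ω| ≤ 1) {Λ : Type*} (X : Finset Λ)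
    (hX : X.Nonempty) {J : Λ → (ι → Bool) → Finset ι} (hJ : ∀ x ∈ X, Stop (J x))
    (hf : ∀ x ∈ X, ∀ ω ω' : ι → Bool, (∀ i ∈ J x ω, ω i = ω' i) → f ω' = f ω) {δ : ℝ}
    (hδ0 : 0 ≤ δ) (hδ : ∀ i, ∑ x ∈ X, ((univ.filter fun ω => i ∈ J x ω).card : ℝ) ≤
      δ * X.card * (2 : ℝ) ^ Fintype.card ι) {ρ : ℝ} (h0 : 0 ≤ ρ) (h1 : ρ < 1) :
    ∑ x : ι → Bool, ∑ y : ι → Bool, f x * f y * ∏ i, ((1 + ρ * (sg (x i) * sg (y i))) / 4) -
      ((∑ ω, f ω) / (2 : ℝ) ^ Fintype.card ι) ^ 2 ≤ δ * (ρ / (1 - ρ) ^ 2) := by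
  set N : ℝ := (2 : ℝ) ^ Fintype.card ι with hN
  have hN0 : 0 < N := by positivity
  have e1 : ∑ x : ι → Bool, ∑ y : ι → Bool, f x * f y *
      ∏ i, ((1 + ρ * (sg (x i) * sg (y i))) / 4) =
      (∑ k ∈ range (Fintype.card ι + 1), ρ ^ k * Wt f k) / N ^ 2 := by
    rw [← stab_eq, sum_div]
    refine sum_congr rfl fun x _ => ?_
    rw [sum_div]
    refine sum_congr rfl fun y _ => ?_
    rw [prod_div_distrib, prod_const, card_univ]
    have : (4 : ℝ) ^ Fintype.card ι = N ^ 2 := by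
      rw [hN, ← pow_mul, mul_comm, pow_mul]; norm_num
    rw [this]
    ring
  rw [e1, sum_range_succ', pow_zero, one_mul, Wt_zero, div_pow, ← sub_div, add_sub_cancel_right,
    div_le_iff₀ (by positivity)]
  have h2 : ∀ k ∈ range (Fintype.card ι), ρ ^ (k + 1) * Wt f (k + 1) ≤
      (((k + 1 : ℕ) : ℝ) * ρ ^ (k + 1)) * (δ * N ^ 2) := by
    intro k _
    have h3 := level_le hf1 X hX hJ hf hδ0 hδ (Nat.succ_le_succ (Nat.zero_le k))
    calc ρ ^ (k + 1) * Wt f (k + 1) ≤ ρ ^ (k + 1) * (((k + 1 : ℕ) : ℝ) * δ * N ^ 2) :=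
          mul_le_mul_of_nonneg_left h3 (by positivity)
      _ = _ := by ring
  refine (sum_le_sum h2).trans ?_
  rw [← sum_mul]
  have hρ : ‖ρ‖ < 1 := by rw [Real.norm_eq_abs, abs_of_nonneg h0]; exact h1
  have h3 : ∑ k ∈ range (Fintype.card ι), (((k + 1 : ℕ) : ℝ) * ρ ^ (k + 1)) ≤
      ρ / (1 - ρ) ^ 2 := by
    rw [← tsum_coe_mul_geometric_of_norm_lt_one hρ]
    have hs : Summable fun n : ℕ => (n : ℝ) * ρ ^ n :=
      (hasSum_coe_mul_geometric_of_norm_lt_one hρ).summable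
    have h4 := sum_range_succ' (fun n : ℕ => (n : ℝ) * ρ ^ n) (Fintype.card ι)
    have h5 : ∑ k ∈ range (Fintype.card ι), (((k + 1 : ℕ) : ℝ) * ρ ^ (k + 1)) =
        ∑ k ∈ range (Fintype.card ι + 1), (k : ℝ) * ρ ^ k := by
      rw [h4]; simp
    rw [h5]
    exact hs.sum_le_tsum _ fun n _ => by positivity
  calc _ ≤ ρ / (1 - ρ) ^ 2 * (δ * N ^ 2) := mul_le_mul_of_nonneg_right h3 (by positivity)
    _ = _ := by ring

end Pool.Agent.X136.QC
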